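import Pool.Agent.Q282.DT.Stm
import Mathlib.RingTheory.MvPolynomial.Ideal
import Mathlib.RingTheory.Ideal.MinimalPrime.Noetherian
import Mathlib.RingTheory.KrullDimension.Field

/-! Project DT (helper282), job CUT (helper56): hyperplane sections of homogeneous primes. -/

set_option autoImplicit false

namespace Q56.DT

open MvPolynomial Q282DT

theorem aux1 (x : WithBot ℕ∞) (e : ℕ) (h : x + 1 ≤ (e : WithBot ℕ∞) + 1) :
    x ≤ (e : WithBot ℕ∞) := by
  induction x using WithBot.recBotCoe with
  | bot => exact bot_le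
  | coe x =>
    have h1 : x + 1 ≤ (e : ℕ∞) + 1 := by exact_mod_cast h
    have h2 : x ≤ (e : ℕ∞) := (ENat.add_le_add_iff_right (by simp)).1 h1
    exact_mod_cast h2

theorem aux2 (x : WithBot ℕ∞) (e : ℕ) (h : x < ((e + 1 : ℕ) : WithBot ℕ∞)) :
    x ≤ (e : WithBot ℕ∞) := by
  induction x using WithBot.recBotCoe with
  | bot => exact bot_le
  | coe x =>
    have h1 : x < ((e + 1 : ℕ) : ℕ∞) := by exact_mod_cast h
    have h2 : x ≤ (e : ℕ∞) := by
      rw [Nat.cast_add, Nat.cast_one] at h1
      exact Order.le_of_lt_add_one h1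
    exact_mod_cast h2

theorem dim_le_of_integral {A B : Type} [CommRing A] [CommRing B] [Algebra A B]
    [Algebra.IsIntegral A B] : ringKrullDim B ≤ ringKrullDim A := by
  refine Order.krullDim_le_of_strictMono (PrimeSpectrum.comap (algebraMap A B)) ?_
  intro p q hpq
  exact Ideal.IsIntegral.comap_lt_comap hpq

/-- strict inclusions of primes decrease the dimension -/
theorem dim_succ_le {R : Type} [CommRing R] {a q : Ideal R} (ha : a.IsPrime) (h : a < q) :
    ringKrullDim (R ⧸ q) + 1 ≤ ringKrullDim (R ⧸ a) := by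
  obtain ⟨r, hrq, hra⟩ := SetLike.exists_of_lt h
  refine ringKrullDim_succ_le_of_surjective (Ideal.Quotient.factor h.le)
    (Ideal.Quotient.factor_surjective h.le) (r := Ideal.Quotient.mk a r) ?_ ?_
  · rw [mem_nonZeroDivisors_iff_ne_zero, Ne, Ideal.Quotient.eq_zero_iff_mem]
    exact hra
  · rw [Ideal.Quotient.factor_mk, Ideal.Quotient.eq_zero_iff_mem]
    exact hrq

theorem dim_mono {R : Type} [CommRing R] {a q : Ideal R} (h : a ≤ q) :
    ringKrullDim (R ⧸ q) ≤ ringKrullDim (R ⧸ a) :=
  ringKrullDim_le_of_surjective (Ideal.Quotient.factor h) (Ideal.Quotient.factor_surjective h)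

section

variable {k : Type} [Field k] {n : ℕ}

theorem mem_vars_iff (f : MvPolynomial (Fin n) k) : f ∈ idealOfVars (Fin n) k ↔ coeff 0 f = 0 := by
  have h := mem_pow_idealOfVars_iff' 1 f
  rw [pow_one] at h
  rw [h]
  constructor
  · intro h1
    exact h1 0 (by simp)
  · intro h1 x hx
    have h2 : x = 0 := (Finsupp.degree_eq_zero_iff x).1 (by omega)
    rw [h2]
    exact h1

theorem vars_max : (idealOfVars (Fin n) k).IsMaximal := by
  have h : idealOfVars (Fin n) k = RingHom.ker (constantCoeff : MvPolynomial (Fin n) k →+* k) := by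
    ext f
    rw [mem_vars_iff, RingHom.mem_ker]
    rfl
  rw [h]
  exact RingHom.ker_isMaximal_of_surjective _ fun a => ⟨C a, constantCoeff_C _ a⟩

theorem vars_le {q : Ideal (MvPolynomial (Fin n) k)} (h : ∀ j, X j ∈ q) :
    idealOfVars (Fin n) k ≤ q := by
  rw [idealOfVars, Ideal.span_le]
  rintro _ ⟨j, rfl⟩
  exact h j

/-- a homogeneous prime ideal lies in the ideal of the variables -/
theorem le_vars {a : Ideal (MvPolynomial (Fin n) k)} (ha : a.IsPrime) (hh : Hom a) :
    a ≤ idealOfVars (Fin n) k := by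
  intro f hf
  rw [mem_vars_iff]
  by_contra h0
  have h1 := hh f hf 0
  rw [homogeneousComponent_zero] at h1
  have h2 := a.mul_mem_left (C (coeff 0 f)⁻¹) h1
  rw [← C_mul, inv_mul_cancel₀ h0, C_1] at h2
  exact (Ideal.ne_top_iff_one a).1 ha.ne_top h2

theorem dim_zero {q : Ideal (MvPolynomial (Fin n) k)} (hq : q.IsPrime) (h : ∀ j, X j ∈ q) :
    ringKrullDim (MvPolynomial (Fin n) k ⧸ q) = 0 := by
  have h1 : q = idealOfVars (Fin n) k :=
    (vars_max.eq_of_le hq.ne_top (vars_le h)).symm
  have h2 : q.IsMaximal := by rw [h1]; exact vars_max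
  let _ := Ideal.Quotient.field q
  exact ringKrullDim_eq_zero_of_field _

theorem one_le_dim {a : Ideal (MvPolynomial (Fin n) k)} (ha : a.IsPrime) (hh : Hom a)
    (h : ∃ j, X j ∉ a) : 1 ≤ ringKrullDim (MvPolynomial (Fin n) k ⧸ a) := by
  obtain ⟨j, hj⟩ := h
  have h1 : a < idealOfVars (Fin n) k :=
    lt_of_le_of_ne (le_vars ha hh) fun h2 => hj (by rw [h2]; exact Ideal.subset_span ⟨j, rfl⟩)
  have h2 := dim_succ_le ha h1
  have h3 : Nontrivial (MvPolynomial (Fin n) k ⧸ idealOfVars (Fin n) k) :=
    Ideal.Quotient.nontrivial_iff.2 (vars_max (k := k) (n := n)).ne_top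
  have h4 := ringKrullDim_nonneg_of_nontrivial (R := MvPolynomial (Fin n) k ⧸
    idealOfVars (Fin n) k)
  calc (1 : WithBot ℕ∞) = 0 + 1 := by simp
    _ ≤ ringKrullDim (MvPolynomial (Fin n) k ⧸ idealOfVars (Fin n) k) + 1 := by gcongr
    _ ≤ _ := h2

/-- a linear form outside of finitely many ideals -/
theorem exists_lin [Infinite k] (T : Set (Ideal (MvPolynomial (Fin n) k))) (hT : T.Finite)
    (h : ∀ a ∈ T, ∃ j, X j ∉ a) :
    ∃ z : MvPolynomial (Fin n) k, z.IsHomogeneous 1 ∧ ∀ a ∈ T, z ∉ a := by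
  classical
  let Λ : (Fin n → k) →ₗ[k] MvPolynomial (Fin n) k :=
    Fintype.linearCombination k (fun j => (X j : MvPolynomial (Fin n) k))
  have hΛ : ∀ v, Λ v = ∑ j, v j • (X j : MvPolynomial (Fin n) k) := fun v => rfl
  let W : Ideal (MvPolynomial (Fin n) k) → Subspace k (Fin n → k) :=
    fun a => (a.restrictScalars k).comap Λ
  have hW : (⊤ : Subspace k (Fin n → k)) ∉ hT.toFinset.image W := by
    intro h1
    obtain ⟨a, ha, haW⟩ := Finset.mem_image.1 h1
    obtain ⟨j, hj⟩ := h a (hT.mem_toFinset.1 ha)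
    apply hj
    have h2 : Pi.single j (1 : k) ∈ W a := by rw [haW]; exact Submodule.mem_top
    have h3 : Λ (Pi.single j 1) ∈ a := h2
    rw [hΛ, Finset.sum_eq_single j] at h3
    · rwa [Pi.single_eq_same, one_smul] at h3
    · intro i _ hne
      rw [Pi.single_eq_of_ne hne, zero_smul]
    · intro h'
      exact absurd (Finset.mem_univ _) h'
  have h2 := Subspace.biUnion_ne_univ_of_top_notMem hW
  obtain ⟨v, hv⟩ := (Set.ne_univ_iff_exists_notMem _).1 h2
  refine ⟨Λ v, ?_, fun a ha hva => hv ?_⟩
  · rw [hΛ]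
    refine IsHomogeneous.sum _ _ _ fun j _ => ?_
    rw [smul_eq_C_mul]
    have h3 := (isHomogeneous_C (Fin n) (v j)).mul (isHomogeneous_X k j)
    rwa [zero_add] at h3
  · simp only [Set.mem_iUnion]
    exact ⟨W a, Finset.mem_image.2 ⟨a, hT.mem_toFinset.2 ha, rfl⟩, hva⟩

attribute [local instance] MvPolynomial.gradedAlgebra in
theorem hom_sup {I : Ideal (MvPolynomial (Fin n) k)} (hI : Hom I) {z : MvPolynomial (Fin n) k}
    {d : ℕ} (hz : z.IsHomogeneous d) : Hom (I ⊔ Ideal.span {z}) := by
  rw [hom_iff] at hI ⊢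
  refine Ideal.IsHomogeneous.sup hI (Ideal.homogeneous_span _ _ ?_)
  intro x hx
  rw [Set.mem_singleton_iff] at hx
  rw [hx]
  exact ⟨d, hz⟩

theorem lemA [Infinite k] : ∀ (e : ℕ) (I : Ideal (MvPolynomial (Fin n) k)), Hom I →
    (∀ q : Ideal (MvPolynomial (Fin n) k), q.IsPrime → I ≤ q →
      ringKrullDim (MvPolynomial (Fin n) k ⧸ q) ≤ (e : WithBot ℕ∞)) →
    ∃ z : Fin e → MvPolynomial (Fin n) k, (∀ i, (z i).IsHomogeneous 1) ∧
      ∀ q : Ideal (MvPolynomial (Fin n) k), q.IsPrime → I ≤ q → (∀ i, z i ∈ q) →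
        ∀ j, X j ∈ q := by
  intro e
  induction e with
  | zero =>
    intro I hI hdim
    refine ⟨fun i => i.elim0, fun i => i.elim0, fun q hq hIq _ j => ?_⟩
    obtain ⟨a, ha, haq⟩ := Ideal.exists_minimalPrimes_le hIq
    by_contra hj
    have h1 := one_le_dim ha.1.1 (hom_minimal hI ha) ⟨j, fun h => hj (haq h)⟩
    have h2 := hdim a ha.1.1 ha.1.2
    have h3 := h1.trans h2
    norm_num at h3
  | succ e ih =>
    intro I hI hdim
    obtain ⟨z, hz1, hz⟩ := exists_lin {a ∈ I.minimalPrimes | ∃ j, X j ∉ a}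
      ((Ideal.finite_minimalPrimes_of_isNoetherianRing _ I).subset (Set.sep_subset _ _))
      (fun a ha => ha.2)
    obtain ⟨z', hz'1, hz'⟩ := ih (I ⊔ Ideal.span {z}) (hom_sup hI hz1) (by
      intro q hq hIq
      obtain ⟨a, ha, haq⟩ := Ideal.exists_minimalPrimes_le (le_sup_left.trans hIq)
      by_cases h : ∃ j, X j ∉ a
      · have hza : z ∉ a := hz a ⟨ha, h⟩
        have hzq : z ∈ q := hIq (Ideal.mem_sup_right (Ideal.mem_span_singleton_self z))
        have h1 : a < q := lt_of_le_of_ne haq fun h2 => hza (by rw [h2]; exact hzq)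
        have h2 := (dim_succ_le ha.1.1 h1).trans (hdim a ha.1.1 ha.1.2)
        rw [Nat.cast_add, Nat.cast_one] at h2
        exact aux1 _ _ h2
      · push Not at h
        rw [dim_zero hq fun j => haq (h j)]
        exact_mod_cast Nat.zero_le e)
    refine ⟨Fin.cons z z', fun i => ?_, fun q hq hIq hzq j => ?_⟩
    · refine Fin.cases ?_ (fun i => ?_) i
      · exact hz1
      · exact hz'1 i
    · refine hz' q hq (sup_le hIq ?_) (fun i => hzq i.succ) j
      rw [Ideal.span_singleton_le_iff_mem]
      exact hzq 0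

theorem hc_mul (t : ℕ) (g y : MvPolynomial (Fin n) k) (hy : y.IsHomogeneous 1) :
    homogeneousComponent (t + 1) (g * y) = homogeneousComponent t g * y := by
  conv_lhs => rw [← sum_homogeneousComponent g]
  rw [Finset.sum_mul, map_sum]
  have h1 : ∀ i, homogeneousComponent (t + 1) (homogeneousComponent i g * y) =
      if t = i then homogeneousComponent i g * y else 0 := by
    intro i
    have h2 : homogeneousComponent i g * y ∈ homogeneousSubmodule (Fin n) k (i + 1) :=
      (homogeneousComponent_isHomogeneous i g).mul hy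
    rw [homogeneousComponent_of_mem h2]
    simp only [Nat.add_right_cancel_iff]
  simp only [h1]
  by_cases ht : t ∈ Finset.range (g.totalDegree + 1)
  · rw [Finset.sum_ite_eq, if_pos ht]
  · rw [Finset.sum_ite_eq, if_neg ht, homogeneousComponent_eq_zero, zero_mul]
    rw [Finset.mem_range] at ht
    omega

theorem lemB {c : ℕ} (p : Ideal (MvPolynomial (Fin n) k)) (hh : Hom p)
    (y : Fin c → MvPolynomial (Fin n) k) (hy : ∀ i, (y i).IsHomogeneous 1)
    (h : ∀ q : Ideal (MvPolynomial (Fin n) k), q.IsPrime → p ≤ q → (∀ i, y i ∈ q) →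
      ∀ j, X j ∈ q) :
    ringKrullDim (MvPolynomial (Fin n) k ⧸ p) ≤ (c : WithBot ℕ∞) := by
  classical
  set J := p ⊔ Ideal.span (Set.range y) with hJ
  have hrad : idealOfVars (Fin n) k ≤ J.radical := by
    rw [Ideal.radical_eq_sInf]
    refine le_sInf fun q hq => vars_le (h q hq.2 (le_sup_left.trans hq.1) fun i => ?_)
    exact hq.1 (Ideal.mem_sup_right (Ideal.subset_span ⟨i, rfl⟩))
  obtain ⟨N, hN⟩ := Ideal.exists_pow_le_of_le_radical_of_fg hrad (idealOfVars_fg _ _)
  let ψ : MvPolynomial (Fin c) k →+* MvPolynomial (Fin n) k ⧸ p :=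
    (Ideal.Quotient.mk p).comp (aeval y : MvPolynomial (Fin c) k →ₐ[k] _).toRingHom
  let _ : Algebra (MvPolynomial (Fin c) k) (MvPolynomial (Fin n) k ⧸ p) := ψ.toAlgebra
  have hsm : ∀ (a : MvPolynomial (Fin c) k) (b : MvPolynomial (Fin n) k),
      a • (Ideal.Quotient.mk p b) = Ideal.Quotient.mk p (aeval y a * b) := by
    intro a b
    rw [Algebra.smul_def, map_mul]
    rfl
  let M : Set (MvPolynomial (Fin n) k ⧸ p) :=
    (fun e : Fin n →₀ ℕ => Ideal.Quotient.mk p (monomial e 1)) '' {e | e.degree < N + 1}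
  have hM : M.Finite := (Finsupp.finite_of_degree_lt (N + 1)).image _
  have hform : ∀ t : ℕ, ∀ f : MvPolynomial (Fin n) k, f.IsHomogeneous t →
      Ideal.Quotient.mk p f ∈ Submodule.span (MvPolynomial (Fin c) k) M := by
    intro t
    induction t with
    | zero =>
      intro f hf
      rw [f.as_sum, map_sum]
      refine Submodule.sum_mem _ fun e he => ?_
      have h1 : e.degree = 0 := by
        by_contra h2
        exact (mem_support_iff.1 he) (hf.coeff_eq_zero h2)
      have h2 : Ideal.Quotient.mk p (monomial e (coeff e f)) =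
          (C (coeff e f) : MvPolynomial (Fin c) k) • Ideal.Quotient.mk p (monomial e 1) := by
        rw [hsm, aeval_C]
        congr 1
        change monomial e (coeff e f) = C (coeff e f) * monomial e 1
        rw [C_mul_monomial, mul_one]
      rw [h2]
      exact Submodule.smul_mem _ _ (Submodule.subset_span ⟨e, by
        change e.degree < N + 1
        omega, rfl⟩)
    | succ t ih =>
      intro f hf
      by_cases ht : t + 1 < N + 1
      · rw [f.as_sum, map_sum]
        refine Submodule.sum_mem _ fun e he => ?_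
        have h1 : e.degree = t + 1 := by
          by_contra h2
          exact (mem_support_iff.1 he) (hf.coeff_eq_zero h2)
        have h2 : Ideal.Quotient.mk p (monomial e (coeff e f)) =
            (C (coeff e f) : MvPolynomial (Fin c) k) • Ideal.Quotient.mk p (monomial e 1) := by
          rw [hsm, aeval_C]
          congr 1
          change monomial e (coeff e f) = C (coeff e f) * monomial e 1
          rw [C_mul_monomial, mul_one]
        rw [h2]
        exact Submodule.smul_mem _ _ (Submodule.subset_span ⟨e, by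
          change e.degree < N + 1
          omega, rfl⟩)
      · have hfJ : f ∈ J := by
          apply hN
          rw [mem_pow_idealOfVars_iff']
          intro x hx
          exact hf.coeff_eq_zero (by omega)
        obtain ⟨u, hu, v, hv, huv⟩ := Submodule.mem_sup.1 hfJ
        obtain ⟨g, hg⟩ := Ideal.mem_span_range_iff_exists_fun.1 hv
        have h3 : f = homogeneousComponent (t + 1) u +
            ∑ i, homogeneousComponent t (g i) * y i := by
          rw [← homogeneousComponent_eq_self hf, ← huv, ← hg, map_add, map_sum]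
          congr 1
          exact Finset.sum_congr rfl fun i _ => hc_mul t (g i) (y i) (hy i)
        rw [h3, map_add, Ideal.Quotient.eq_zero_iff_mem.2 (hh u hu (t + 1)), zero_add, map_sum]
        refine Submodule.sum_mem _ fun i _ => ?_
        have h4 : Ideal.Quotient.mk p (homogeneousComponent t (g i) * y i) =
            (X i : MvPolynomial (Fin c) k) •
              Ideal.Quotient.mk p (homogeneousComponent t (g i)) := by
          rw [hsm, aeval_X, mul_comm]
        rw [h4]
        exact Submodule.smul_mem _ _ (ih _ (homogeneousComponent_isHomogeneous t (g i)))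
  have htop : Submodule.span (MvPolynomial (Fin c) k) M = ⊤ := by
    rw [eq_top_iff]
    intro x _
    obtain ⟨f, rfl⟩ := Ideal.Quotient.mk_surjective x
    rw [← sum_homogeneousComponent f, map_sum]
    exact Submodule.sum_mem _ fun t _ => hform t _ (homogeneousComponent_isHomogeneous t f)
  have hfin : Module.Finite (MvPolynomial (Fin c) k) (MvPolynomial (Fin n) k ⧸ p) :=
    ⟨⟨hM.toFinset, by rw [Set.Finite.coe_toFinset, htop]⟩⟩
  have hint : Algebra.IsIntegral (MvPolynomial (Fin c) k) (MvPolynomial (Fin n) k ⧸ p) :=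
    Algebra.IsIntegral.of_finite _ _
  refine (dim_le_of_integral (A := MvPolynomial (Fin c) k)).trans ?_
  rw [MvPolynomial.ringKrullDim_of_isNoetherianRing, ringKrullDim_eq_zero_of_field, zero_add,
    Nat.card_eq_fintype_card, Fintype.card_fin]

end

theorem t_CUT : S_Cut := by
  intro k _ _ n p hp hh l hl hlp δ hdim
  have hI : Hom (p ⊔ Ideal.span {l}) := hom_sup hh hl
  obtain ⟨q, hq, hIq, hδ⟩ : ∃ q : Ideal (MvPolynomial (Fin n) k), q.IsPrime ∧
      p ⊔ Ideal.span {l} ≤ q ∧
        (δ : WithBot ℕ∞) ≤ ringKrullDim (MvPolynomial (Fin n) k ⧸ q) := by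
    by_contra hcon
    push Not at hcon
    cases δ with
    | zero =>
      have hle : p ⊔ Ideal.span {l} ≤ idealOfVars (Fin n) k := by
        refine sup_le (le_vars hp hh) ?_
        rw [Ideal.span_singleton_le_iff_mem, mem_vars_iff]
        exact hl.coeff_eq_zero (by simp)
      have h1 := hcon _ (vars_max (k := k) (n := n)).isPrime hle
      have h3 : Nontrivial (MvPolynomial (Fin n) k ⧸ idealOfVars (Fin n) k) :=
        Ideal.Quotient.nontrivial_iff.2 (vars_max (k := k) (n := n)).ne_top
      exact absurd (ringKrullDim_nonneg_of_nontrivial (R := MvPolynomial (Fin n) k ⧸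
        idealOfVars (Fin n) k)) (not_le.2 (by exact_mod_cast h1))
    | succ δ =>
      obtain ⟨z, hz1, hz⟩ := lemA δ (p ⊔ Ideal.span {l}) hI (by
        intro q hq hIq
        have h1 := hcon q hq hIq
        exact aux2 _ _ h1)
      have h2 := lemB p hh (Fin.cons l z : Fin (δ + 1) → MvPolynomial (Fin n) k) (by
        intro i
        refine Fin.cases ?_ (fun i => ?_) i
        · exact hl
        · exact hz1 i) (by
        intro q hq hpq hyq j
        refine hz q hq (sup_le hpq ?_) (fun i => hyq i.succ) j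
        rw [Ideal.span_singleton_le_iff_mem]
        exact hyq 0)
      rw [hdim] at h2
      have h3 : δ + 1 + 1 ≤ δ + 1 := by exact_mod_cast h2
      omega
  obtain ⟨p', hp', hpq⟩ := Ideal.exists_minimalPrimes_le hIq
  have hpp : p ≤ p' := le_sup_left.trans hp'.1.2
  have hlp' : l ∈ p' := hp'.1.2 (Ideal.mem_sup_right (Ideal.mem_span_singleton_self l))
  refine ⟨p', hp'.1.1, hom_minimal hI hp', hpp, hlp', le_antisymm ?_ (hδ.trans (dim_mono hpq))⟩
  have h1 : p < p' := lt_of_le_of_ne hpp fun h2 => hlp (by rw [h2]; exact hlp')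
  have h2 := dim_succ_le hp h1
  rw [hdim, Nat.cast_add, Nat.cast_one] at h2
  exact aux1 _ _ h2

end Q56.DT
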