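import Pool.Agent.Q55.DT.Stm

/-! Project DT (helper55), job DUP (helper56): the dimension of the generic determinantal ring is at
most `r (n + m - r)`. -/

set_option autoImplicit false

namespace Pool.Agent.Q56.DT

open Pool.Agent.Q55.DT

section

variable {n m : ℕ}

/-- the diagonal through `w` -/
def lev (w : Fin n × Fin m) : Finset (Fin n × Fin m) :=
  Finset.univ.filter fun v => (v.2 : ℕ) + w.1 = w.2 + v.1

theorem mem_lev (v w : Fin n × Fin m) : v ∈ lev w ↔ (v.2 : ℕ) + w.1 = w.2 + v.1 := by
  simp [lev]

/-- the elementary symmetric polynomial of a diagonal attached to one of its elements -/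
def th {D : Type} [CommRing D] (y : Fin n × Fin m → D) (w : Fin n × Fin m) : D :=
  ∑ T ∈ (lev w).powersetCard (min (w.1 : ℕ) w.2 + 1), ∏ v ∈ T, y v

theorem core {D : Type} [CommRing D] [IsDomain D] {r : ℕ} (y : Fin n × Fin m → D)
    (hminor : ∀ (a : Fin (r + 1) → Fin n) (b : Fin (r + 1) → Fin m), StrictMono a →
      StrictMono b → (Matrix.of fun i j => y (a i, b j)).det = 0)
    (hth : ∀ w : Fin n × Fin m, ((w.1 : ℕ) < r ∨ (w.2 : ℕ) < r) → th y w = 0) :
    ∀ v, y v = 0 := by
  classical
  suffices h : ∀ N : ℕ, ∀ v : Fin n × Fin m, (m - 1 - (v.2 : ℕ)) + v.1 = N → y v = 0 from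
    fun v => h _ v rfl
  intro N
  induction N using Nat.strong_induction_on with
  | _ N ih =>
    intro v hv
    by_contra hy
    set Nz := (lev v).filter fun u => y u ≠ 0 with hNz
    have hvNz : v ∈ Nz := by
      rw [hNz, Finset.mem_filter, mem_lev]
      exact ⟨rfl, hy⟩
    have hpos : 1 ≤ Nz.card := Finset.card_pos.2 ⟨v, hvNz⟩
    have hr : Nz.card ≤ r := by
      by_contra hcon
      push Not at hcon
      obtain ⟨T, hT, hcard⟩ := Finset.exists_subset_card_eq (show r + 1 ≤ Nz.card from hcon)
      have hTl : ∀ u ∈ T, (u.2 : ℕ) + v.1 = v.2 + u.1 ∧ y u ≠ 0 := by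
        intro u hu
        have h1 := Finset.mem_filter.1 (hT hu)
        exact ⟨(mem_lev u v).1 h1.1, h1.2⟩
      have hinj : Set.InjOn (Prod.fst : Fin n × Fin m → Fin n) T := by
        intro u hu u' hu' h
        have h1 := (hTl u hu).1
        have h2 := (hTl u' hu').1
        refine Prod.ext h (Fin.ext ?_)
        rw [h] at h1
        omega
      have hcard' : (T.image Prod.fst).card = r + 1 := by
        rw [Finset.card_image_of_injOn hinj, hcard]
      have hex : ∀ k : Fin (r + 1), ∃ j : Fin m,
          ((T.image Prod.fst).orderEmbOfFin hcard' k, j) ∈ T := by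
        intro k
        obtain ⟨u, hu, hu'⟩ := Finset.mem_image.1
          (Finset.orderEmbOfFin_mem (T.image Prod.fst) hcard' k)
        exact ⟨u.2, by rw [← hu']; exact hu⟩
      choose b hb using hex
      obtain ⟨a, ha⟩ : ∃ a : Fin (r + 1) → Fin n,
          a = fun k => (T.image Prod.fst).orderEmbOfFin hcard' k := ⟨_, rfl⟩
      have hamono : StrictMono a := by
        rw [ha]
        exact ((T.image Prod.fst).orderEmbOfFin hcard').strictMono
      replace hb : ∀ k, (a k, b k) ∈ T := by
        rw [ha]
        exact hb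
      have hab : ∀ k, ((b k : Fin m) : ℕ) + v.1 = v.2 + a k := fun k => (hTl _ (hb k)).1
      have hbmono : StrictMono b := by
        intro k k' hk
        have h1 : (a k : ℕ) < a k' := hamono hk
        have h2 := hab k
        have h3 := hab k'
        change (b k : ℕ) < b k'
        omega
      have hdet := hminor a b hamono hbmono
      rw [Matrix.det_of_isLowerTriangular] at hdet
      · obtain ⟨k, -, hk⟩ := Finset.prod_eq_zero_iff.1 hdet
        exact (hTl _ (hb k)).2 hk
      · intro i j hij
        have hij' : i < j := hij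
        have h1 : (b i : ℕ) < b j := hbmono hij'
        have h2 := hab i
        have h3 := (b j).2
        have h4 := v.2.2
        refine ih ((m - 1 - (b j : ℕ)) + a i) ?_ _ rfl
        omega
    -- an element of the diagonal with the right position
    obtain ⟨w, hw, hwk⟩ : ∃ w ∈ lev v, min (w.1 : ℕ) w.2 = Nz.card - 1 := by
      obtain ⟨u, hu, huk⟩ : ∃ u ∈ lev v, Nz.card - 1 ≤ min (u.1 : ℕ) u.2 := by
        by_contra hcon
        push Not at hcon
        have h1 : ((lev v).image fun u : Fin n × Fin m => min (u.1 : ℕ) u.2).card ≤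
            (Finset.range (Nz.card - 1)).card := by
          refine Finset.card_le_card fun x hx => ?_
          obtain ⟨u, hu, rfl⟩ := Finset.mem_image.1 hx
          exact Finset.mem_range.2 (hcon u hu)
        rw [Finset.card_image_of_injOn, Finset.card_range] at h1
        · have h2 : Nz.card ≤ (lev v).card := Finset.card_le_card (Finset.filter_subset _ _)
          omega
        · intro u hu u' hu' h
          have h2 := (mem_lev u v).1 hu
          have h3 := (mem_lev u' v).1 hu'
          have h4 : min (u.1 : ℕ) u.2 = min (u'.1 : ℕ) u'.2 := h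
          refine Prod.ext (Fin.ext ?_) (Fin.ext ?_) <;> omega
      have h2 := (mem_lev u v).1 hu
      have h3 := u.1.2
      have h4 := u.2.2
      refine ⟨(⟨u.1 - (min (u.1 : ℕ) u.2 - (Nz.card - 1)), by omega⟩,
        ⟨u.2 - (min (u.1 : ℕ) u.2 - (Nz.card - 1)), by omega⟩), ?_, ?_⟩
      · rw [mem_lev]
        dsimp only
        omega
      · dsimp only
        omega
    have hlw : lev w = lev v := by
      ext u
      rw [mem_lev, mem_lev]
      have h1 := (mem_lev w v).1 hw
      constructor <;> intro h <;> omega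
    have h1 := hth w (by
      rcases min_choice (w.1 : ℕ) w.2 with h | h
      · left; omega
      · right; omega)
    unfold th at h1
    rw [hlw, hwk, Nat.sub_add_cancel hpos, Finset.sum_eq_single Nz] at h1
    · obtain ⟨u, hu, hu'⟩ := Finset.prod_eq_zero_iff.1 h1
      exact (Finset.mem_filter.1 hu).2 hu'
    · intro T hT hne
      obtain ⟨hTl, hTc⟩ := Finset.mem_powersetCard.1 hT
      by_contra hprod
      apply hne
      refine Finset.eq_of_subset_of_card_le (fun u hu => ?_) (by rw [hTc])
      rw [hNz, Finset.mem_filter]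
      exact ⟨hTl hu, fun h0 => hprod (Finset.prod_eq_zero hu h0)⟩
    · intro h
      exact absurd (Finset.mem_powersetCard.2 ⟨Finset.filter_subset _ _, rfl⟩) h

theorem th_map {D D' : Type} [CommRing D] [CommRing D'] (φ : D →+* D')
    (y : Fin n × Fin m → D) (w : Fin n × Fin m) :
    φ (th y w) = th (fun v => φ (y v)) w := by
  unfold th
  rw [map_sum]
  exact Finset.sum_congr rfl fun T _ => map_prod _ _ _

/-- the number of the positions in the first `r` rows or columns -/
theorem card_W (r : ℕ) (hr : r ≤ n) (hr' : r ≤ m) :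
    (Finset.univ.filter fun w : Fin n × Fin m => (w.1 : ℕ) < r ∨ (w.2 : ℕ) < r).card =
      r * (n + m - r) := by
  classical
  have h1 := Finset.card_filter_add_card_filter_not (s := (Finset.univ : Finset (Fin n × Fin m)))
    (fun w : Fin n × Fin m => (w.1 : ℕ) < r ∨ (w.2 : ℕ) < r)
  have h2 : (Finset.univ.filter fun w : Fin n × Fin m => ¬ ((w.1 : ℕ) < r ∨ (w.2 : ℕ) < r)) =
      (Finset.univ.filter fun i : Fin n => r ≤ (i : ℕ)) ×ˢ
        (Finset.univ.filter fun j : Fin m => r ≤ (j : ℕ)) := by
    ext w
    simp [not_or, not_lt]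
  have h3 : ∀ N : ℕ, r ≤ N → (Finset.univ.filter fun i : Fin N => r ≤ (i : ℕ)).card = N - r := by
    intro N hN
    have h4 := Finset.card_filter_add_card_filter_not (s := (Finset.univ : Finset (Fin N)))
      (fun i : Fin N => (i : ℕ) < r)
    have h5 : (Finset.univ.filter fun i : Fin N => (i : ℕ) < r).card = r := by
      rw [Fin.card_filter_val_lt, min_eq_right hN]
    have h6 : (Finset.univ.filter fun i : Fin N => ¬ (i : ℕ) < r) =
        (Finset.univ.filter fun i : Fin N => r ≤ (i : ℕ)) := by
      ext i
      simp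
    rw [h5, h6, Finset.card_univ, Fintype.card_fin] at h4
    omega
  rw [h2, Finset.card_product, h3 n hr, h3 m hr', Finset.card_univ, Fintype.card_prod,
    Fintype.card_fin, Fintype.card_fin] at h1
  obtain ⟨n', rfl⟩ := Nat.exists_eq_add_of_le hr
  obtain ⟨m', rfl⟩ := Nat.exists_eq_add_of_le hr'
  have h7 : r + n' + (r + m') - r = r + n' + m' := by omega
  rw [h7]
  have h8 : r + n' - r = n' := by omega
  have h9 : r + m' - r = m' := by omega
  rw [h8, h9] at h1
  nlinarith

end

theorem det_zero {P R D : Type} [CommRing P] [CommRing R] [CommRing D] (f : P →+* R)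
    (g : R →+* D) {t : ℕ} (M : Matrix (Fin t) (Fin t) P) (h : f M.det = 0) :
    (Matrix.of fun i j => g (f (M i j))).det = 0 := by
  have h1 := RingHom.map_det (g.comp f) M
  rw [RingHom.comp_apply, h, map_zero] at h1
  exact h1.symm

theorem dup (h : S_LocD) : S_DUp := by
  classical
  intro K _ n m r hr hrn hrm
  obtain ⟨hN, hL, -, hM, -⟩ := h K n m (r + 1) (by omega)
  let x : Fin n × Fin m → DetRing K n m (r + 1) := fun v =>
    Ideal.Quotient.mk (minorIdeal K n m (r + 1)) (MvPowerSeries.X v)
  let W : Finset (Fin n × Fin m) :=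
    Finset.univ.filter fun w : Fin n × Fin m => (w.1 : ℕ) < r ∨ (w.2 : ℕ) < r
  let Θ : Finset (DetRing K n m (r + 1)) := W.image (th x)
  have hxM : ∀ v, x v ∈ IsLocalRing.maximalIdeal (DetRing K n m (r + 1)) := by
    intro v
    rw [IsLocalRing.mem_maximalIdeal, mem_nonunits_iff, ← hM]
    exact Ideal.subset_span ⟨v, rfl⟩
  have hmin : IsLocalRing.maximalIdeal (DetRing K n m (r + 1)) ∈ (Ideal.span (Θ : Set (DetRing K n m (r + 1)))).minimalPrimes := by
    refine ⟨⟨inferInstance, ?_⟩, ?_⟩
    · rw [Ideal.span_le]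
      intro z hz
      obtain ⟨w, -, rfl⟩ := Finset.mem_image.1 (Finset.mem_coe.1 hz)
      refine Ideal.sum_mem _ fun T hT => ?_
      have hT' := (Finset.mem_powersetCard.1 hT).2
      obtain ⟨v, hv⟩ : T.Nonempty := Finset.card_pos.1 (by omega)
      rw [← Finset.mul_prod_erase _ _ hv]
      exact Ideal.mul_mem_right _ _ (hxM v)
    · rintro q ⟨hq, hΘq⟩ -
      have hcore := core (r := r) (fun v => Ideal.Quotient.mk q (x v)) (by
        intro a b ha hb
        exact det_zero (R := DetRing K n m (r + 1)) (D := DetRing K n m (r + 1) ⧸ q)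
          (Ideal.Quotient.mk (minorIdeal K n m (r + 1))) (Ideal.Quotient.mk q)
          (Matrix.of fun i j => (MvPowerSeries.X (a i, b j) :
            MvPowerSeries (Fin n × Fin m) K))
          (Ideal.Quotient.eq_zero_iff_mem.2 (Ideal.subset_span ⟨a, b, ha, hb, rfl⟩))) (by
        intro w hw
        rw [← th_map, Ideal.Quotient.eq_zero_iff_mem]
        exact hΘq (Ideal.subset_span (Finset.mem_coe.2 (Finset.mem_image.2
          ⟨w, Finset.mem_filter.2 ⟨Finset.mem_univ _, hw⟩, rfl⟩))))
      intro z hz
      rw [IsLocalRing.mem_maximalIdeal, mem_nonunits_iff, ← hM] at hz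
      have h2 : mIdeal K n m (r + 1) ≤ q := by
        unfold mIdeal
        rw [Ideal.span_le]
        rintro _ ⟨v, rfl⟩
        exact Ideal.Quotient.eq_zero_iff_mem.1 (hcore v)
      exact h2 hz
  have h3 := Ideal.height_le_card_of_mem_minimalPrimes_span_finset hmin
  rw [← IsLocalRing.maximalIdeal_height_eq_ringKrullDim]
  have h4 : Θ.card ≤ r * (n + m - r) := by
    rw [← card_W (n := n) (m := m) r hrn.le hrm.le]
    exact Finset.card_image_le
  have h5 : (IsLocalRing.maximalIdeal (DetRing K n m (r + 1))).height ≤ ((r * (n + m - r) : ℕ) : ℕ∞) :=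
    h3.trans (by exact_mod_cast h4)
  exact WithBot.coe_le_coe.2 h5

end Pool.Agent.Q56.DT
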