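import Pool.Agent.Q56.DT.Cut
import Mathlib.Order.Interval.Finset.Fin

/-! Project DT (helper282), job EXI (helper56): distraction of the lexicographic ideal. -/

set_option autoImplicit false

namespace Q56.DT

open MvPolynomial Q282DT

theorem lex_lt {n : ℕ} (a b : Fin n → ℕ) :
    toLex a < toLex b ↔ ∃ t, (∀ j < t, a j = b j) ∧ a t < b t := Iff.rfl

theorem lex_le {n : ℕ} (a b : Fin n → ℕ) (h : toLex a ≤ toLex b) :
    a = b ∨ ∃ t, (∀ j < t, a j = b j) ∧ a t < b t := by
  rcases h.lt_or_eq with h | h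
  · exact Or.inr ((lex_lt a b).1 h)
  · exact Or.inl (toLex.injective h)

section

variable {F : Type} [Field F] {m : ℕ} (cc : ℕ → F) (ν : Fin (m + 1) → ℕ)

/-- the linear forms -/
noncomputable def lin (i : Fin m) (j : ℕ) : MvPolynomial (Fin (m + 1)) F :=
  X i.castSucc - C (cc j) * X (Fin.last m)

/-- the products -/
noncomputable def DD (a : Fin (m + 1) → ℕ) : MvPolynomial (Fin (m + 1)) F :=
  (∏ i : Fin m, ∏ j ∈ Finset.range (a i.castSucc), lin cc i j) *
    X (Fin.last m) ^ a (Fin.last m)

theorem lin_hom (i : Fin m) (j : ℕ) : (lin cc i j).IsHomogeneous 1 := by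
  unfold lin
  refine (isHomogeneous_X F _).sub ?_
  have h := (isHomogeneous_C (Fin (m + 1)) (cc j)).mul (isHomogeneous_X F (Fin.last m))
  rwa [zero_add] at h

theorem DD_hom (a : Fin (m + 1) → ℕ) : (DD cc a).IsHomogeneous (∑ i, a i) := by
  unfold DD
  rw [Fin.sum_univ_castSucc]
  refine IsHomogeneous.mul ?_ ?_
  · refine IsHomogeneous.prod _ _ _ fun i _ => ?_
    have h := IsHomogeneous.prod (Finset.range (a i.castSucc)) (fun j => lin cc i j)
      (fun _ => 1) (fun j _ => lin_hom cc i j)
    rwa [Finset.sum_const, Finset.card_range, smul_eq_mul, mul_one] at h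
  · have h := (isHomogeneous_X F (Fin.last m)).pow (a (Fin.last m))
    rwa [one_mul] at h

theorem DD_mem {p : Ideal (MvPolynomial (Fin (m + 1)) F)} (hp : p.IsPrime)
    (a : Fin (m + 1) → ℕ) (h : DD cc a ∈ p) :
    (∃ i : Fin m, ∃ j < a i.castSucc, lin cc i j ∈ p) ∨
      (X (Fin.last m) ∈ p ∧ a (Fin.last m) ≠ 0) := by
  unfold DD at h
  rcases hp.mem_or_mem h with h | h
  · left
    obtain ⟨i, -, hi⟩ := (Ideal.IsPrime.prod_mem_iff (hp := hp)).1 h
    obtain ⟨j, hj, hj'⟩ := (Ideal.IsPrime.prod_mem_iff (hp := hp)).1 hi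
    exact ⟨i, j, Finset.mem_range.1 hj, hj'⟩
  · right
    refine ⟨hp.mem_of_pow_mem _ h, fun h0 => ?_⟩
    rw [h0, pow_zero] at h
    exact (Ideal.ne_top_iff_one p).1 hp.ne_top h

theorem mem_DD {p : Ideal (MvPolynomial (Fin (m + 1)) F)}
    (a : Fin (m + 1) → ℕ) (i : Fin m) (j : ℕ) (hj : j < a i.castSucc) (h : lin cc i j ∈ p) :
    DD cc a ∈ p := by
  unfold DD
  refine p.mul_mem_right _ ?_
  rw [← Finset.mul_prod_erase _ _ (Finset.mem_univ i)]
  refine p.mul_mem_right _ ?_
  rw [← Finset.mul_prod_erase _ _ (Finset.mem_range.2 hj)]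
  exact p.mul_mem_right _ h

theorem uniq {p : Ideal (MvPolynomial (Fin (m + 1)) F)} (hX : X (Fin.last m) ∉ p)
    (i : Fin m) {j j' : ℕ} (h : lin cc i j ∈ p) (h' : lin cc i j' ∈ p) : cc j = cc j' := by
  by_contra hne
  apply hX
  have h1 := p.sub_mem h' h
  have h2 : lin cc i j' - lin cc i j = C (cc j - cc j') * X (Fin.last m) := by
    unfold lin
    rw [C_sub]
    ring
  rw [h2] at h1
  have h3 := p.mul_mem_left (C (cc j - cc j')⁻¹) h1
  rwa [← mul_assoc, ← C_mul, inv_mul_cancel₀ (sub_ne_zero.2 hne), C_1, one_mul] at h3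

/-- the parametrization of the components -/
noncomputable def ph (i : Fin m) (k : ℕ) :
    MvPolynomial (Fin (m + 1)) F →ₐ[F] MvPolynomial {j : Fin (m + 1) // i.castSucc < j} F :=
  aeval fun j => if h : i.castSucc < j then X ⟨j, h⟩ else
    C (if j = i.castSucc then cc k else cc (ν j)) * X ⟨Fin.last m, Fin.castSucc_lt_last i⟩

theorem ph_gt (i : Fin m) (k : ℕ) (j : Fin (m + 1)) (h : i.castSucc < j) :
    ph cc ν i k (X j) = X ⟨j, h⟩ := by
  unfold ph
  rw [aeval_X, dif_pos h]

theorem ph_eq (i : Fin m) (k : ℕ) : ph cc ν i k (X i.castSucc) =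
    C (cc k) * X ⟨Fin.last m, Fin.castSucc_lt_last i⟩ := by
  unfold ph
  rw [aeval_X, dif_neg (lt_irrefl _), if_pos rfl]

theorem ph_lt (i : Fin m) (k : ℕ) (j : Fin m) (h : j < i) : ph cc ν i k (X j.castSucc) =
    C (cc (ν j.castSucc)) * X ⟨Fin.last m, Fin.castSucc_lt_last i⟩ := by
  unfold ph
  rw [aeval_X, dif_neg, if_neg]
  · intro h1
    exact absurd (Fin.castSucc_injective m h1) h.ne
  · exact not_lt.2 (Fin.castSucc_le_castSucc_iff.2 h.le)

/-- the components -/
noncomputable def ll (i : Fin m) (k : ℕ) : Ideal (MvPolynomial (Fin (m + 1)) F) :=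
  RingHom.ker (ph cc ν i k)

theorem ll_prime (i : Fin m) (k : ℕ) : (ll cc ν i k).IsPrime := RingHom.ker_isPrime _

theorem ll_last (i : Fin m) (k : ℕ) : X (Fin.last m) ∉ ll cc ν i k := by
  intro h
  have h1 : ph cc ν i k (X (Fin.last m)) = 0 := h
  rw [ph_gt cc ν i k _ (Fin.castSucc_lt_last i)] at h1
  exact X_ne_zero _ h1

theorem ll_self (i : Fin m) (k : ℕ) : lin cc i k ∈ ll cc ν i k := by
  change ph cc ν i k (lin cc i k) = 0
  unfold lin
  rw [map_sub, map_mul, ph_eq, ph_gt cc ν i k _ (Fin.castSucc_lt_last i)]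
  have h : ph cc ν i k (C (cc k)) = C (cc k) := (ph cc ν i k).commutes (cc k)
  rw [h, sub_self]

theorem ll_lt (i : Fin m) (k : ℕ) (j : Fin m) (hj : j < i) :
    lin cc j (ν j.castSucc) ∈ ll cc ν i k := by
  change ph cc ν i k (lin cc j (ν j.castSucc)) = 0
  unfold lin
  rw [map_sub, map_mul, ph_lt cc ν i k j hj, ph_gt cc ν i k _ (Fin.castSucc_lt_last i)]
  have h : ph cc ν i k (C (cc (ν j.castSucc))) = C (cc (ν j.castSucc)) :=
    (ph cc ν i k).commutes _
  rw [h, sub_self]

theorem ll_le (i : Fin m) (k : ℕ) {p : Ideal (MvPolynomial (Fin (m + 1)) F)}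
    (h1 : ∀ j : Fin m, j < i → lin cc j (ν j.castSucc) ∈ p) (h2 : lin cc i k ∈ p) :
    ll cc ν i k ≤ p := by
  let g : MvPolynomial {j : Fin (m + 1) // i.castSucc < j} F →ₐ[F]
      (MvPolynomial (Fin (m + 1)) F ⧸ p) := aeval fun j => Ideal.Quotient.mk p (X j.1)
  have hg : g.comp (ph cc ν i k) = Ideal.Quotient.mkₐ F p := by
    apply MvPolynomial.algHom_ext
    intro j
    rw [AlgHom.comp_apply]
    have hgC : ∀ a : F, g (C a) = Ideal.Quotient.mk p (C a) := fun a => g.commutes a
    by_cases hj : i.castSucc < j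
    · rw [ph_gt cc ν i k j hj]
      simp only [g, aeval_X]
      rfl
    · have hjm : j ≠ Fin.last m := by
        intro h
        exact hj (by rw [h]; exact Fin.castSucc_lt_last i)
      obtain ⟨j', rfl⟩ := Fin.exists_castSucc_eq.2 hjm
      have hkey : ∀ t : ℕ, lin cc j' t ∈ p → ph cc ν i k (X j'.castSucc) =
          C (cc t) * X ⟨Fin.last m, Fin.castSucc_lt_last i⟩ →
          g (ph cc ν i k (X j'.castSucc)) = Ideal.Quotient.mkₐ F p (X j'.castSucc) := by
        intro t ht he
        rw [he, map_mul, hgC]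
        simp only [g, aeval_X]
        rw [← map_mul]
        symm
        exact Ideal.Quotient.eq.2 ht
      by_cases he : j' = i
      · exact hkey k (by rw [he]; exact h2) (by rw [he]; exact ph_eq cc ν i k)
      · have hlt : j' < i :=
          lt_of_le_of_ne (Fin.castSucc_le_castSucc_iff.1 (not_lt.1 hj)) he
        exact hkey _ (h1 j' hlt) (ph_lt cc ν i k j' hlt)
  intro f hf
  have h3 := DFunLike.congr_fun hg f
  rw [AlgHom.comp_apply] at h3
  have h4 : ph cc ν i k f = 0 := hf
  rw [h4, map_zero] at h3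
  exact Ideal.Quotient.eq_zero_iff_mem.1 h3.symm

theorem ll_dim (i : Fin m) (k : ℕ) :
    ringKrullDim (MvPolynomial (Fin (m + 1)) F ⧸ ll cc ν i k) =
      ((m - i : ℕ) : WithBot ℕ∞) := by
  have hsurj : Function.Surjective (ph cc ν i k) := by
    intro f
    induction f using MvPolynomial.induction_on with
    | C a => exact ⟨C a, (ph cc ν i k).commutes a⟩
    | add p q hp hq =>
      obtain ⟨a, rfl⟩ := hp
      obtain ⟨b, rfl⟩ := hq
      exact ⟨a + b, map_add _ _ _⟩
    | mul_X p j hp =>
      obtain ⟨a, rfl⟩ := hp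
      refine ⟨a * X j.1, ?_⟩
      rw [map_mul, ph_gt cc ν i k j.1 j.2]
  have e := RingHom.quotientKerEquivOfSurjective (f := (ph cc ν i k).toRingHom) hsurj
  have h1 : ringKrullDim (MvPolynomial (Fin (m + 1)) F ⧸ ll cc ν i k) =
      ringKrullDim (MvPolynomial {j : Fin (m + 1) // i.castSucc < j} F) :=
    ringKrullDim_eq_of_ringEquiv e
  rw [h1, MvPolynomial.ringKrullDim_of_isNoetherianRing, ringKrullDim_eq_zero_of_field, zero_add,
    Nat.card_eq_fintype_card, Fintype.card_subtype]
  have h2 : (Finset.univ.filter fun j : Fin (m + 1) => i.castSucc < j) =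
      Finset.Ioi i.castSucc := by
    ext j
    simp
  rw [h2, Fin.card_Ioi, Fin.val_castSucc]
  congr 1

end

section

variable {F : Type} [Field F] {m d : ℕ} (cc : ℕ → F)
  (hcc : ∀ i j, i ≤ d → j ≤ d → cc i = cc j → i = j) (ν : Fin (m + 1) → ℕ) (hν : ∑ i, ν i = d)

include hν in
theorem nu_le (i : Fin (m + 1)) : ν i ≤ d := by
  rw [← hν]
  exact Finset.single_le_sum (f := ν) (fun _ _ => Nat.zero_le _) (Finset.mem_univ i)

theorem DD_mem_ll (i : Fin m) (k : ℕ) (hk : k < ν i.castSucc) (a : Fin (m + 1) → ℕ)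
    (hle : toLex ν ≤ toLex a) : DD cc a ∈ ll cc ν i k := by
  rcases lex_le ν a hle with h | ⟨t, ht, hlt⟩
  · exact mem_DD cc a i k (by rw [← h]; exact hk) (ll_self cc ν i k)
  · rcases lt_trichotomy t i.castSucc with h | h | h
    · have hm : t ≠ Fin.last m := (h.trans (Fin.castSucc_lt_last i)).ne
      obtain ⟨t', rfl⟩ := Fin.exists_castSucc_eq.2 hm
      exact mem_DD cc a t' _ hlt (ll_lt cc ν i k t' (Fin.castSucc_lt_castSucc_iff.1 h))
    · rw [h] at hlt
      exact mem_DD cc a i k (by omega) (ll_self cc ν i k)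
    · exact mem_DD cc a i k (by rw [← ht _ h]; exact hk) (ll_self cc ν i k)

include hcc hν in
theorem prime_cases {p : Ideal (MvPolynomial (Fin (m + 1)) F)} (hp : p.IsPrime)
    (h : ∀ a : Fin (m + 1) → ℕ, ∑ i, a i = d → toLex ν ≤ toLex a → DD cc a ∈ p) :
    (∃ (i : Fin m) (k : ℕ), k < ν i.castSucc ∧ ll cc ν i k ≤ p) ∨ ∀ j, X j ∈ p := by
  classical
  by_cases hX : X (Fin.last m) ∈ p
  · by_cases hall : ∀ j, X j ∈ p
    · exact Or.inr hall
    left
    push Not at hall
    -- the least variable outside of `p`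
    obtain ⟨i₁, hi₁, hmin⟩ : ∃ i₁ : Fin (m + 1), X i₁ ∉ p ∧ ∀ j < i₁, X j ∈ p := by
      have hne : (Finset.univ.filter fun j : Fin (m + 1) => X j ∉ p).Nonempty := by
        obtain ⟨j, hj⟩ := hall
        exact ⟨j, by simpa using hj⟩
      refine ⟨_, (Finset.mem_filter.1 (Finset.min'_mem _ hne)).2, fun j hj => ?_⟩
      by_contra hjp
      exact absurd (Finset.min'_le _ j (by simpa using hjp)) (not_le.2 hj)
    have hm : i₁ ≠ Fin.last m := fun h1 => hi₁ (by rw [h1]; exact hX)
    obtain ⟨i, rfl⟩ := Fin.exists_castSucc_eq.2 hm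
    have hlin : ∀ (i : Fin m) (j : ℕ), lin cc i j ∈ p ↔ X i.castSucc ∈ p := by
      intro i j
      unfold lin
      have h1 : C (cc j) * X (Fin.last m) ∈ p := p.mul_mem_left _ hX
      exact ⟨fun h2 => by
        have h3 := p.add_mem h2 h1
        rwa [sub_add_cancel] at h3, fun h2 => p.sub_mem h2 h1⟩
    have hnot : ¬ toLex ν ≤ toLex (Pi.single i.castSucc d) := by
      intro hle
      have h1 := h (Pi.single i.castSucc d) (by rw [Finset.sum_pi_single']; simp) hle
      rcases DD_mem cc hp _ h1 with ⟨i', j, hj, hl⟩ | ⟨-, h2⟩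
      · by_cases he : i'.castSucc = i.castSucc
        · rw [hlin, he] at hl
          exact hi₁ hl
        · rw [Pi.single_eq_of_ne he] at hj
          omega
      · exact h2 (Pi.single_eq_of_ne (Fin.castSucc_lt_last i).ne' _)
    obtain ⟨t, ht, hlt⟩ := (lex_lt _ _).1 (not_le.1 hnot)
    have hti : t < i.castSucc := by
      rcases lt_trichotomy t i.castSucc with h1 | h1 | h1
      · exact h1
      · rw [h1, Pi.single_eq_same] at hlt
        have := nu_le ν hν i.castSucc
        omega
      · have h2 := ht _ h1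
        rw [Pi.single_eq_same] at h2
        have h3 : ν i.castSucc + ν t ≤ ∑ i, ν i := by
          rw [← Finset.sum_pair h1.ne]
          exact Finset.sum_le_sum_of_subset (Finset.subset_univ _)
        rw [hν] at h3
        omega
    have htm : t ≠ Fin.last m := (hti.trans (Fin.castSucc_lt_last i)).ne
    obtain ⟨t', rfl⟩ := Fin.exists_castSucc_eq.2 htm
    refine ⟨t', 0, by omega, ll_le cc ν t' 0 (fun j hj => ?_) ?_⟩
    · rw [hlin]
      exact hmin _ ((Fin.castSucc_lt_castSucc_iff.2 hj).trans hti)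
    · rw [hlin]
      exact hmin _ hti
  · left
    by_contra hcon
    push Not at hcon
    -- the step
    have key : ∀ i : Fin m, (∀ j < i, lin cc j (ν j.castSucc) ∈ p) →
        lin cc i (ν i.castSucc) ∈ p := by
      intro i hi
      by_contra hni
      have hk : ∀ k ≤ ν i.castSucc, lin cc i k ∉ p := by
        intro k hk hkp
        rcases hk.lt_or_eq with h1 | h1
        · exact hcon i k h1 (ll_le cc ν i k hi hkp)
        · exact hni (by rw [← h1]; exact hkp)
      have hj : ∀ j < i, ∀ k < ν j.castSucc, lin cc j k ∉ p := by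
        intro j hj k hk hkp
        have h1 := hcc _ _ (hk.le.trans (nu_le ν hν _)) (nu_le ν hν _)
          (uniq cc hX j hkp (hi j hj))
        omega
      -- the sum of the first exponents
      by_cases hs : ∑ j ∈ Finset.Iic i.castSucc, ν j = d
      · have h0 : ∀ j, i.castSucc < j → ν j = 0 := by
          intro j hj
          have h1 : ∑ j ∈ Finset.Iic i.castSucc, ν j + ν j ≤ ∑ i, ν i := by
            rw [add_comm, ← Finset.sum_insert (by simpa using hj)]
            exact Finset.sum_le_sum_of_subset (Finset.subset_univ _)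
          omega
        rcases DD_mem cc hp _ (h ν hν le_rfl) with ⟨i', j, hj', hl⟩ | ⟨h2, -⟩
        · rcases lt_trichotomy i' i with h1 | h1 | h1
          · exact hj i' h1 j hj' hl
          · rw [h1] at hj' hl
            exact hk j hj'.le hl
          · rw [h0 _ (Fin.castSucc_lt_castSucc_iff.2 h1)] at hj'
            omega
        · exact hX h2
      · have hsle : ∑ j ∈ Finset.Iic i.castSucc, ν j ≤ d := by
          rw [← hν]
          exact Finset.sum_le_sum_of_subset (Finset.subset_univ _)
        let a : Fin (m + 1) → ℕ := fun j =>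
          if j < i.castSucc then ν j else if j = i.castSucc then ν j + 1 else
            if j = Fin.last m then d - ∑ j ∈ Finset.Iic i.castSucc, ν j - 1 else 0
        have ha1 : ∀ j, j < i.castSucc → a j = ν j := fun j hj => if_pos hj
        have ha2 : a i.castSucc = ν i.castSucc + 1 := by
          simp only [a]
          rw [if_neg (lt_irrefl _), if_pos trivial]
        have ha3 : a (Fin.last m) = d - ∑ j ∈ Finset.Iic i.castSucc, ν j - 1 := by
          simp only [a]
          rw [if_neg (not_lt.2 (Fin.le_last _)), if_neg (Fin.castSucc_lt_last i).ne', if_pos trivial]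
        have ha4 : ∀ j, i.castSucc < j → j ≠ Fin.last m → a j = 0 := by
          intro j hj hj'
          simp only [a]
          rw [if_neg (not_lt.2 hj.le), if_neg hj.ne', if_neg hj']
        have hsum : ∑ j, a j = d := by
          have h1 : ∑ j ∈ Finset.Iic i.castSucc, a j =
              ∑ j ∈ Finset.Iic i.castSucc, ν j + 1 := by
            have h2 : Finset.Iic i.castSucc = insert i.castSucc (Finset.Iio i.castSucc) := by
              ext j
              simp [le_iff_eq_or_lt]
            rw [h2, Finset.sum_insert (by simp), Finset.sum_insert (by simp), ha2,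
              Finset.sum_congr rfl fun j hj => ha1 j (Finset.mem_Iio.1 hj)]
            ring
          have h3 : ∑ j ∈ (Finset.Iic i.castSucc)ᶜ, a j = a (Fin.last m) := by
            refine Finset.sum_eq_single _ (fun j hj hne => ?_) fun h4 => ?_
            · exact ha4 j (by simpa using hj) hne
            · exact absurd (by simp) h4
          rw [← Finset.sum_add_sum_compl (Finset.Iic i.castSucc), h1, h3, ha3]
          omega
        have hlex : toLex ν ≤ toLex a :=
          le_of_lt ((lex_lt _ _).2 ⟨i.castSucc, fun j hj => (ha1 j hj).symm, by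
            rw [ha2]
            exact Nat.lt_succ_self _⟩)
        rcases DD_mem cc hp _ (h a hsum hlex) with ⟨i', j, hj', hl⟩ | ⟨h2, -⟩
        · rcases lt_trichotomy i' i with h1 | h1 | h1
          · rw [ha1 _ (Fin.castSucc_lt_castSucc_iff.2 h1)] at hj'
            exact hj i' h1 j hj' hl
          · rw [h1, ha2] at hj'
            rw [h1] at hl
            exact hk j (by omega) hl
          · rw [ha4 _ (Fin.castSucc_lt_castSucc_iff.2 h1) (Fin.castSucc_lt_last i').ne] at hj'
            omega
        · exact hX h2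
    have hall : ∀ N : ℕ, ∀ i : Fin m, (i : ℕ) = N → lin cc i (ν i.castSucc) ∈ p := by
      intro N
      induction N using Nat.strong_induction_on with
      | _ N ih =>
        intro i hi
        refine key i fun j hj => ih j ?_ j rfl
        rw [← hi]
        exact hj
    rcases DD_mem cc hp _ (h ν hν le_rfl) with ⟨i, j, hj, hl⟩ | ⟨h2, -⟩
    · have h1 := hcc _ _ (hj.le.trans (nu_le ν hν _)) (nu_le ν hν _)
        (uniq cc hX i hl (hall i i rfl))
      omega
    · exact hX h2

include hcc hν in
theorem ll_inj {i i' : Fin m} {k k' : ℕ} (hk : k < ν i.castSucc) (hk' : k' < ν i'.castSucc)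
    (h : ll cc ν i' k' ≤ ll cc ν i k) : i' = i ∧ k' = k := by
  rcases lt_trichotomy i' i with h1 | h1 | h1
  · have h2 := hcc _ _ (hk'.le.trans (nu_le ν hν _)) (nu_le ν hν _)
      (uniq cc (ll_last cc ν i k) i' (h (ll_self cc ν i' k')) (ll_lt cc ν i k i' h1))
    omega
  · subst h1
    refine ⟨rfl, hcc _ _ (hk'.le.trans (nu_le ν hν _)) (hk.le.trans (nu_le ν hν _))
      (uniq cc (ll_last cc ν i' k) i' (h (ll_self cc ν i' k')) (ll_self cc ν i' k))⟩
  · have h2 := hcc _ _ (hk.le.trans (nu_le ν hν _)) (nu_le ν hν _)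
      (uniq cc (ll_last cc ν i k) i (ll_self cc ν i k) (h (ll_lt cc ν i' k' i h1)))
    omega

theorem eval_DD (a b : Fin (m + 1) → ℕ) :
    eval (fun j => if j = Fin.last m then (1 : F) else cc (b j)) (DD cc a) =
      ∏ i : Fin m, ∏ j ∈ Finset.range (a i.castSucc), (cc (b i.castSucc) - cc j) := by
  unfold DD
  rw [map_mul, map_pow, eval_X, if_pos rfl, one_pow, mul_one, map_prod]
  refine Finset.prod_congr rfl fun i _ => ?_
  rw [map_prod]
  refine Finset.prod_congr rfl fun j _ => ?_
  unfold lin
  rw [map_sub, map_mul, eval_X, eval_X, eval_C, if_pos rfl,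
    if_neg (Fin.castSucc_lt_last i).ne, mul_one]

include hcc in
theorem DD_indep {κ : Type} [Fintype κ] (a : κ → Fin (m + 1) → ℕ) (ha : ∀ x, ∑ i, a x i = d)
    (hinj : Function.Injective a) : LinearIndependent F fun x => DD cc (a x) := by
  classical
  have hle : ∀ x i, a x i ≤ d := fun x i => nu_le (a x) (ha x) i
  rw [Fintype.linearIndependent_iff]
  intro g hg
  have main : ∀ N : ℕ, ∀ x, ∑ i : Fin m, a x i.castSucc = N → g x = 0 := by
    intro N
    induction N using Nat.strong_induction_on with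
    | _ N ih =>
      intro x hx
      have h1 := congrArg
        (eval (fun j => if j = Fin.last m then (1 : F) else cc (a x j))) hg
      rw [map_sum, map_zero, Finset.sum_eq_single x] at h1
      · rw [smul_eq_C_mul, map_mul, eval_C, eval_DD] at h1
        rcases mul_eq_zero.1 h1 with h2 | h2
        · exact h2
        · exfalso
          obtain ⟨i, -, hi⟩ := Finset.prod_eq_zero_iff.1 h2
          obtain ⟨j, hj, hj'⟩ := Finset.prod_eq_zero_iff.1 hi
          have h3 := Finset.mem_range.1 hj
          have h4 := hcc _ _ (hle x _) (h3.le.trans (hle x _)) (sub_eq_zero.1 hj')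
          omega
      · intro y _ hyx
        rw [smul_eq_C_mul, map_mul, eval_C, eval_DD]
        by_cases hall : ∀ i : Fin m, a y i.castSucc ≤ a x i.castSucc
        · have hlt : ∑ i : Fin m, a y i.castSucc < N := by
            rw [← hx]
            refine lt_of_le_of_ne (Finset.sum_le_sum fun i _ => hall i) fun heq => hyx ?_
            have h5 := (Finset.sum_eq_sum_iff_of_le fun i _ => hall i).1 heq
            apply hinj
            funext j
            refine Fin.lastCases ?_ (fun i => h5 i (Finset.mem_univ i)) j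
            have h6 := ha x
            have h7 := ha y
            rw [Fin.sum_univ_castSucc] at h6 h7
            omega
          rw [ih _ hlt y rfl, zero_mul]
        · push Not at hall
          obtain ⟨i, hi⟩ := hall
          rw [Finset.prod_eq_zero (Finset.mem_univ i), mul_zero]
          exact Finset.prod_eq_zero (Finset.mem_range.2 hi) (sub_self _)
      · intro h'
        exact absurd (Finset.mem_univ _) h'
  exact fun x => main _ x rfl

end

theorem t_EXI : S_Exi := by
  classical
  intro F _ m d _ c hc ν hν r hr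
  let cc : ℕ → F := fun j => if h : j < d + 1 then c ⟨j, h⟩ else 0
  have hcc : ∀ i j, i ≤ d → j ≤ d → cc i = cc j → i = j := by
    intro i j hi hj h
    simp only [cc] at h
    rw [dif_pos (by omega), dif_pos (by omega)] at h
    exact congrArg Fin.val (hc h)
  have hfin : Finite {a : Fin (m + 1) → ℕ // ∑ i, a i = d ∧ toLex ν ≤ toLex a} := by
    refine Finite.of_injective (β := Fin (m + 1) → Fin (d + 1))
      (fun a i => ⟨a.1 i, Nat.lt_succ_of_le (nu_le a.1 a.2.1 i)⟩) fun a b h => ?_
    apply Subtype.ext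
    funext i
    exact congrArg Fin.val (congrFun h i)
  obtain ⟨e⟩ : Nonempty (Fin r ≃ {a : Fin (m + 1) → ℕ // ∑ i, a i = d ∧ toLex ν ≤ toLex a}) := by
    rw [hr]
    exact ⟨(Finite.equivFin _).symm⟩
  let f : Fin r → MvPolynomial (Fin (m + 1)) F := fun j => DD cc (e j).1
  have hfJ : ∀ p : Ideal (MvPolynomial (Fin (m + 1)) F), Ideal.span (Set.range f) ≤ p ↔
      ∀ a : Fin (m + 1) → ℕ, ∑ i, a i = d → toLex ν ≤ toLex a → DD cc a ∈ p := by
    intro p
    rw [Ideal.span_le]
    constructor
    · intro h a ha hle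
      have h1 : f (e.symm ⟨a, ha, hle⟩) ∈ p := h ⟨_, rfl⟩
      simp only [f, Equiv.apply_symm_apply] at h1
      exact h1
    · rintro h _ ⟨j, rfl⟩
      exact h _ (e j).2.1 (e j).2.2
  refine ⟨f, ?_, fun j => ?_, fun i => ?_⟩
  · exact DD_indep cc hcc (fun j => (e j).1) (fun j => (e j).2.1)
      (Subtype.val_injective.comp e.injective)
  · have h := DD_hom cc (e j).1
    rwa [(e j).2.1] at h
  · have hll : ∀ (i : Fin m) (k : ℕ), k < ν i.castSucc →
        Ideal.span (Set.range f) ≤ ll cc ν i k := fun i k hk =>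
      (hfJ _).2 fun a _ hle => DD_mem_ll cc ν i k hk a hle
    have hset : {p : Ideal (MvPolynomial (Fin (m + 1)) F) |
        p ∈ (Ideal.span (Set.range f)).minimalPrimes ∧
        ringKrullDim (MvPolynomial (Fin (m + 1)) F ⧸ p) = ((m - i : ℕ) : WithBot ℕ∞)} =
        (fun k => ll cc ν i k) '' (Finset.range (ν i.castSucc) : Set ℕ) := by
      ext p
      constructor
      · rintro ⟨hp, hdim⟩
        rcases prime_cases cc hcc ν hν hp.1.1 ((hfJ p).1 hp.1.2) with ⟨i', k, hk, hle⟩ | hall
        · have h1 : p = ll cc ν i' k :=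
            le_antisymm (hp.2 ⟨ll_prime cc ν i' k, hll i' k hk⟩ hle) hle
          rw [h1, ll_dim] at hdim
          have h2 : m - (i' : ℕ) = m - (i : ℕ) := by exact_mod_cast hdim
          have h3 : i' = i := Fin.ext (by omega)
          subst h3
          exact ⟨k, by simpa using hk, h1.symm⟩
        · exfalso
          rw [dim_zero hp.1.1 hall] at hdim
          have h2 : 0 = m - (i : ℕ) := by exact_mod_cast hdim
          omega
      · rintro ⟨k, hk, rfl⟩
        have hk' : k < ν i.castSucc := by simpa using hk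
        refine ⟨⟨⟨ll_prime cc ν i k, hll i k hk'⟩, ?_⟩, ll_dim cc ν i k⟩
        rintro q ⟨hq, hJq⟩ hqle
        rcases prime_cases cc hcc ν hν hq ((hfJ q).1 hJq) with ⟨i', k', hk2, hle⟩ | hall
        · obtain ⟨h1, h2⟩ := ll_inj cc hcc ν hν hk' hk2 (hle.trans hqle)
          subst h1
          subst h2
          exact hle
        · exact absurd (hqle (hall (Fin.last m))) (ll_last cc ν i k)
    unfold dimType
    rw [hset, Set.InjOn.ncard_image, Set.ncard_coe_finset, Finset.card_range]
    intro k hk k' hk' h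
    have h1 : k < ν i.castSucc := by simpa using hk
    have h2 : k' < ν i.castSucc := by simpa using hk'
    exact (ll_inj cc hcc ν hν h2 h1 (le_of_eq h)).2

end Q56.DT
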