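import Pool.Agent.Q56.DT.DUp

/-! Project DT (helper55), job GLOW (helper56): lower bound for the growth of the generic
determinantal ring. -/

set_option autoImplicit false

namespace Pool.Agent.Q56.DT

open Pool.Agent.Q55.DT Module

/-- a matrix of rank `r` with prescribed entries in the first `r` rows and columns -/
theorem exists_rank {L : Type} [Field L] {n m r : ℕ} (hrn : r ≤ n) (hrm : r ≤ m)
    (x : Fin n × Fin m → L)
    (hA : (Matrix.of fun (a b : Fin r) => x (Fin.castLE hrn a, Fin.castLE hrm b)).det ≠ 0) :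
    ∃ y : Fin n × Fin m → L, (∀ v : Fin n × Fin m, ((v.1 : ℕ) < r ∨ (v.2 : ℕ) < r) →
      y v = x v) ∧ ∀ (a : Fin (r + 1) → Fin n) (b : Fin (r + 1) → Fin m),
        (Matrix.of fun i j => y (a i, b j)).det = 0 := by
  set A : Matrix (Fin r) (Fin r) L :=
    Matrix.of fun a b => x (Fin.castLE hrn a, Fin.castLE hrm b) with hAdef
  let P : Matrix (Fin n) (Fin r) L := Matrix.of fun i b => x (i, Fin.castLE hrm b)
  let Q : Matrix (Fin r) (Fin m) L := Matrix.of fun a j => x (Fin.castLE hrn a, j)
  have hu : IsUnit A.det := isUnit_iff_ne_zero.2 hA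
  refine ⟨fun v => (P * (A⁻¹ * Q)) v.1 v.2, ?_, ?_⟩
  · rintro ⟨i, j⟩ (h | h)
    · obtain ⟨a, rfl⟩ : ∃ a : Fin r, Fin.castLE hrn a = i := ⟨⟨i, h⟩, rfl⟩
      have h1 : (P * (A⁻¹ * Q)) (Fin.castLE hrn a) j = (A * (A⁻¹ * Q)) a j := by
        rw [Matrix.mul_apply, Matrix.mul_apply]
        rfl
      have h0 : A * (A⁻¹ * Q) = Q := by
        rw [← Matrix.mul_assoc, Matrix.mul_nonsing_inv A hu, Matrix.one_mul]
      rw [h0] at h1
      exact h1
    · obtain ⟨b, rfl⟩ : ∃ b : Fin r, Fin.castLE hrm b = j := ⟨⟨j, h⟩, rfl⟩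
      have h2 : ∀ c, (A⁻¹ * Q) c (Fin.castLE hrm b) = (1 : Matrix (Fin r) (Fin r) L) c b := by
        intro c
        have h3 : (A⁻¹ * Q) c (Fin.castLE hrm b) = (A⁻¹ * A) c b := by
          rw [Matrix.mul_apply, Matrix.mul_apply]
          rfl
        rw [h3, Matrix.nonsing_inv_mul A hu]
      change (P * (A⁻¹ * Q)) i (Fin.castLE hrm b) = _
      rw [Matrix.mul_apply]
      simp only [h2]
      rw [Finset.sum_eq_single b]
      · rw [Matrix.one_apply_eq, mul_one]
        rfl
      · intro c _ hc
        rw [Matrix.one_apply_ne hc, mul_zero]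
      · intro h'
        exact absurd (Finset.mem_univ _) h'
  · intro a b
    by_contra hne
    have h1 : (Matrix.of fun i j => (P * (A⁻¹ * Q)) (a i) (b j)) =
        (P.submatrix a id) * ((A⁻¹ * Q).submatrix id b) := by
      ext i j
      rw [Matrix.mul_apply, Matrix.of_apply, Matrix.mul_apply]
      rfl
    change (Matrix.of fun i j => (P * (A⁻¹ * Q)) (a i) (b j)).det ≠ 0 at hne
    rw [h1] at hne
    have h2 := Matrix.rank_of_isUnit ((P.submatrix a id) * ((A⁻¹ * Q).submatrix id b))
      ((Matrix.isUnit_iff_isUnit_det _).2 (isUnit_iff_ne_zero.2 hne))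
    have h3 := (Matrix.rank_mul_le_left (P.submatrix a id)
      ((A⁻¹ * Q).submatrix id b)).trans (Matrix.rank_le_width _)
    rw [h2, Fintype.card_fin] at h3
    omega

/-- the number of monomials of degree `< k` -/
theorem pow_le_card (ω : Type) [Finite ω] (k : ℕ) (hω : 1 ≤ Nat.card ω) :
    k ^ Nat.card ω ≤ (Nat.card ω).factorial * Nat.card {e : ω →₀ ℕ // e.degree < k} := by
  classical
  have := Fintype.ofFinite ω
  rcases Nat.eq_zero_or_pos k with rfl | hk
  · rw [zero_pow (by omega)]
    exact Nat.zero_le _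
  have hfin : Finite {e : ω →₀ ℕ // e.degree < k} := Finsupp.finite_of_degree_lt k
  have h1 : Nat.card {P : Option ω → ℕ // ∑ i, P i = k - 1} ≤
      Nat.card {e : ω →₀ ℕ // e.degree < k} := by
    refine Nat.card_le_card_of_injective (fun P => ⟨Finsupp.equivFunOnFinite.symm
      (fun i => P.1 (some i)), ?_⟩) ?_
    · have h2 := P.2
      rw [Fintype.sum_option] at h2
      rw [Finsupp.degree_eq_sum]
      simp only [Finsupp.equivFunOnFinite_symm_apply_apply]
      omega
    · intro P P' h
      have h3 : ∀ i, P.1 (some i) = P'.1 (some i) := by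
        intro i
        have h4 := DFunLike.congr_fun (congrArg Subtype.val h) i
        simpa using h4
      apply Subtype.ext
      funext i
      cases i with
      | none =>
        have h5 := P.2
        have h6 := P'.2
        rw [Fintype.sum_option] at h5 h6
        rw [Finset.sum_congr rfl fun i _ => h3 i] at h5
        omega
      | some i => exact h3 i
  have h2 : Nat.card {P : Option ω → ℕ // ∑ i, P i = k - 1} =
      (k + Nat.card ω - 1).choose (Nat.card ω) := by
    rw [← Nat.card_congr (Sym.equivNatSumOfFintype (Option ω) (k - 1)),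
      Nat.card_eq_fintype_card, Sym.card_sym_eq_multichoose, Nat.multichoose_eq,
      Fintype.card_option, Nat.card_eq_fintype_card]
    have h3 : Fintype.card ω + 1 + (k - 1) - 1 = k + Fintype.card ω - 1 := by omega
    rw [h3]
    have h4 : k + Fintype.card ω - 1 - Fintype.card ω = k - 1 := by omega
    rw [← Nat.choose_symm (show Fintype.card ω ≤ k + Fintype.card ω - 1 by omega), h4]
  calc k ^ Nat.card ω ≤ k.ascFactorial (Nat.card ω) := Nat.pow_succ_le_ascFactorial _ _
    _ = (Nat.card ω).factorial * (k + Nat.card ω - 1).choose (Nat.card ω) :=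
      Nat.ascFactorial_eq_factorial_mul_choose' _ _
    _ ≤ _ := Nat.mul_le_mul_left _ (by rw [← h2]; exact h1)

/-- linear independence of monomials in `L[T] / (T ^ k)` -/
theorem indep (K : Type) [Field K] (ω : Type) (L : Type) [Field L] [Algebra K L]
    (x : ω → L) (hx : AlgebraicIndependent K x) (k : ℕ) :
    LinearIndependent K (fun e : {e : ω →₀ ℕ // e.degree < k} =>
      (Ideal.Quotient.mk (Ideal.span {(Polynomial.X : Polynomial L) ^ k})
        (MvPolynomial.aeval (fun w => Polynomial.C (x w) * Polynomial.X)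
          (MvPolynomial.monomial e.1 (1 : K))))) := by
  classical
  rw [linearIndependent_iff']
  intro s g hg e₀ he₀
  have hmon : ∀ e : ω →₀ ℕ, MvPolynomial.aeval (fun w => Polynomial.C (x w) * Polynomial.X)
      (MvPolynomial.monomial e (1 : K)) =
      Polynomial.C (MvPolynomial.aeval x (MvPolynomial.monomial e (1 : K))) *
        Polynomial.X ^ e.degree := by
    intro e
    rw [MvPolynomial.aeval_monomial, MvPolynomial.aeval_monomial, map_one, map_one, one_mul,
      one_mul, Finsupp.prod, Finsupp.prod, map_prod]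
    simp only [mul_pow]
    rw [Finset.prod_mul_distrib, Finset.prod_pow_eq_pow_sum]
    simp only [map_pow]
    rfl
  have h1 : (Ideal.Quotient.mk (Ideal.span {(Polynomial.X : Polynomial L) ^ k}))
      (∑ e ∈ s, Polynomial.C (MvPolynomial.aeval x (MvPolynomial.monomial e.1 (g e))) *
        Polynomial.X ^ e.1.degree) = 0 := by
    rw [map_sum, ← hg]
    refine Finset.sum_congr rfl fun e _ => ?_
    rw [hmon]
    have h2 : MvPolynomial.aeval x (MvPolynomial.monomial e.1 (g e)) =
        algebraMap K L (g e) * MvPolynomial.aeval x (MvPolynomial.monomial e.1 (1 : K)) := by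
      rw [MvPolynomial.aeval_monomial, MvPolynomial.aeval_monomial, map_one, one_mul]
    have h3 : g e • (Ideal.Quotient.mk (Ideal.span {(Polynomial.X : Polynomial L) ^ k})
        (Polynomial.C (MvPolynomial.aeval x (MvPolynomial.monomial e.1 (1 : K))) *
          Polynomial.X ^ e.1.degree)) =
        Ideal.Quotient.mk (Ideal.span {(Polynomial.X : Polynomial L) ^ k})
          (g e • (Polynomial.C (MvPolynomial.aeval x (MvPolynomial.monomial e.1 (1 : K))) *
            Polynomial.X ^ e.1.degree)) := rfl
    rw [h3, h2, Algebra.smul_def, Polynomial.C_mul, mul_assoc]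
    rfl
  rw [Ideal.Quotient.eq_zero_iff_mem, Ideal.mem_span_singleton, Polynomial.X_pow_dvd_iff] at h1
  have h2 := h1 _ e₀.2
  rw [Polynomial.finsetSum_coeff] at h2
  simp only [Polynomial.coeff_C_mul, Polynomial.coeff_X_pow] at h2
  have h3 : MvPolynomial.aeval x (∑ e ∈ s.filter fun e => e₀.1.degree = e.1.degree,
      MvPolynomial.monomial e.1 (g e)) = 0 := by
    rw [map_sum, Finset.sum_filter]
    refine Eq.trans (Finset.sum_congr rfl fun e _ => ?_) h2
    by_cases h : e₀.1.degree = e.1.degree
    · rw [if_pos h, if_pos h, mul_one]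
    · rw [if_neg h, if_neg h, mul_zero]
  have h4 := hx.eq_zero_of_aeval_eq_zero _ h3
  have h5 := congrArg (MvPolynomial.coeff e₀.1) h4
  rw [MvPolynomial.coeff_sum, Finset.sum_eq_single e₀] at h5
  · rwa [MvPolynomial.coeff_monomial, if_pos rfl] at h5
  · intro e _ hne
    rw [MvPolynomial.coeff_monomial, if_neg]
    exact fun h => hne (Subtype.ext h)
  · intro h
    exact absurd (Finset.mem_filter.2 ⟨he₀, (rfl : e₀.1.degree = e₀.1.degree)⟩) h

section phi

variable (K : Type) [Field K] (n m r k : ℕ) {L : Type} [Field L] [Algebra K L]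
  (y : Fin n × Fin m → L)

/-- the homomorphism to `L[T]` -/
noncomputable def rho : MvPolynomial (Fin n × Fin m) K →ₐ[K] Polynomial L :=
  MvPolynomial.aeval fun v => Polynomial.C (y v) * Polynomial.X

theorem rho_vars : (MvPolynomial.idealOfVars (Fin n × Fin m) K) ^ k ≤
    RingHom.ker ((Ideal.Quotient.mkₐ K (Ideal.span {(Polynomial.X : Polynomial L) ^ k})).comp
      (rho K n m y)) := by
  have h1 : MvPolynomial.idealOfVars (Fin n × Fin m) K ≤
      (Ideal.span {(Polynomial.X : Polynomial L)}).comap (rho K n m y) := by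
    rw [MvPolynomial.idealOfVars, Ideal.span_le]
    rintro _ ⟨v, rfl⟩
    change rho K n m y (MvPolynomial.X v) ∈ Ideal.span {(Polynomial.X : Polynomial L)}
    unfold rho
    rw [MvPolynomial.aeval_X]
    exact Ideal.mul_mem_left _ _ (Ideal.mem_span_singleton_self _)
  intro f hf
  have h2 := Ideal.le_comap_pow (rho K n m y) k (Ideal.pow_right_mono h1 k hf)
  rw [Ideal.mem_comap, Ideal.span_singleton_pow] at h2
  exact Ideal.Quotient.eq_zero_iff_mem.2 h2

/-- the homomorphism from the power series ring to `L[T] / (T ^ k)` -/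
noncomputable def Phi : MvPowerSeries (Fin n × Fin m) K →ₐ[K]
    Polynomial L ⧸ Ideal.span {(Polynomial.X : Polynomial L) ^ k} :=
  (Ideal.Quotient.liftₐ _ ((Ideal.Quotient.mkₐ K
    (Ideal.span {(Polynomial.X : Polynomial L) ^ k})).comp (rho K n m y))
      (fun _ ha => rho_vars K n m k y ha)).comp
    ((MvPowerSeries.truncTotalAlgHom (Fin n × Fin m) K k).restrictScalars K)

theorem Phi_coe (f : MvPolynomial (Fin n × Fin m) K) :
    Phi K n m k y (f : MvPowerSeries (Fin n × Fin m) K) =
      Ideal.Quotient.mk _ (rho K n m y f) := by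
  have h1 := (MvPowerSeries.truncTotalAlgHom (Fin n × Fin m) K k).commutes f
  unfold Phi
  rw [AlgHom.comp_apply]
  have h2 : ((MvPowerSeries.truncTotalAlgHom (Fin n × Fin m) K k).restrictScalars K)
      (f : MvPowerSeries (Fin n × Fin m) K) =
      Ideal.Quotient.mk (MvPolynomial.idealOfVars (Fin n × Fin m) K ^ k) f := h1
  rw [h2]
  rfl

theorem Phi_X (v : Fin n × Fin m) : Phi K n m k y (MvPowerSeries.X v) =
    Ideal.Quotient.mk _ (Polynomial.C (y v) * Polynomial.X) := by
  have h := Phi_coe K n m k y (MvPolynomial.X v)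
  rw [MvPolynomial.coe_X] at h
  rw [h]
  unfold rho
  rw [MvPolynomial.aeval_X]

variable (hy : ∀ (a : Fin (r + 1) → Fin n) (b : Fin (r + 1) → Fin m),
        (Matrix.of fun i j => y (a i, b j)).det = 0)

include hy in
theorem Phi_minor : ∀ f ∈ minorIdeal K n m (r + 1), Phi K n m k y f = 0 := by
  intro f hf
  have h1 : minorIdeal K n m (r + 1) ≤ RingHom.ker (Phi K n m k y) := by
    unfold minorIdeal
    rw [Ideal.span_le]
    rintro _ ⟨a, b, -, -, rfl⟩
    change Phi K n m k y _ = 0
    rw [AlgHom.map_det]
    have h2 : (Phi K n m k y).mapMatrix (Matrix.of fun i j =>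
        (MvPowerSeries.X (a i, b j) : MvPowerSeries (Fin n × Fin m) K)) =
        (Ideal.Quotient.mk (Ideal.span {(Polynomial.X : Polynomial L) ^ k})).mapMatrix
          ((Polynomial.X : Polynomial L) •
            (Polynomial.C.mapMatrix (Matrix.of fun i j => y (a i, b j)))) := by
      ext i j
      simp only [AlgHom.mapMatrix_apply, Matrix.map_apply, Matrix.of_apply,
        RingHom.mapMatrix_apply, Matrix.smul_apply, smul_eq_mul]
      rw [Phi_X, mul_comm]
    rw [h2, ← RingHom.map_det, Matrix.det_smul, ← RingHom.map_det, hy, map_zero, mul_zero,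
      map_zero]
  exact h1 hf

/-- the homomorphism from the quotient -/
noncomputable def Psi : DetRing K n m (r + 1) →ₐ[K]
    Polynomial L ⧸ Ideal.span {(Polynomial.X : Polynomial L) ^ k} :=
  Ideal.Quotient.liftₐ _ (Phi K n m k y) (Phi_minor K n m r k y hy)

theorem Psi_pow : ∀ f ∈ mIdeal K n m (r + 1) ^ k, Psi K n m r k y hy f = 0 := by
  intro f hf
  have h1 : mIdeal K n m (r + 1) ≤ (Ideal.span {Ideal.Quotient.mk
      (Ideal.span {(Polynomial.X : Polynomial L) ^ k}) Polynomial.X}).comap
        (Psi K n m r k y hy) := by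
    unfold mIdeal
    rw [Ideal.span_le]
    rintro _ ⟨v, rfl⟩
    change Psi K n m r k y hy (Ideal.Quotient.mk _ (MvPowerSeries.X v)) ∈
      Ideal.span {Ideal.Quotient.mk
        (Ideal.span {(Polynomial.X : Polynomial L) ^ k}) Polynomial.X}
    have h2 : Psi K n m r k y hy (Ideal.Quotient.mk _ (MvPowerSeries.X v)) =
        Phi K n m k y (MvPowerSeries.X v) := rfl
    rw [h2, Phi_X, map_mul]
    exact Ideal.mul_mem_left _ _ (Ideal.mem_span_singleton_self _)
  have h2 := Ideal.le_comap_pow (Psi K n m r k y hy) k (Ideal.pow_right_mono h1 k hf)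
  rw [Ideal.mem_comap, Ideal.span_singleton_pow, ← map_pow,
    Ideal.Quotient.eq_zero_iff_mem.2 (Ideal.mem_span_singleton_self _),
    Ideal.mem_span_singleton, zero_dvd_iff] at h2
  exact h2

/-- the homomorphism from the quotient by the power of the maximal ideal -/
noncomputable def Xi : (DetRing K n m (r + 1) ⧸ mIdeal K n m (r + 1) ^ k) →ₐ[K]
    Polynomial L ⧸ Ideal.span {(Polynomial.X : Polynomial L) ^ k} :=
  Ideal.Quotient.liftₐ _ (Psi K n m r k y hy) (Psi_pow K n m r k y hy)

end phi

theorem glow (h : S_LocD) : S_GLow := by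
  classical
  intro K _ n m r hr hrn hrm k
  obtain ⟨-, -, -, -, hpow⟩ := h K n m (r + 1) (by omega)
  -- finiteness
  have hfin : Module.Finite K (DetRing K n m (r + 1) ⧸ mIdeal K n m (r + 1) ^ k) := by
    let Λ : MvPowerSeries (Fin n × Fin m) K →ₗ[K]
        (DetRing K n m (r + 1) ⧸ mIdeal K n m (r + 1) ^ k) :=
      ((Ideal.Quotient.mkₐ K (mIdeal K n m (r + 1) ^ k)).comp
        (Ideal.Quotient.mkₐ K (minorIdeal K n m (r + 1)))).toLinearMap
    have hΛ : Function.Surjective Λ := by
      intro z
      obtain ⟨z, rfl⟩ := Ideal.Quotient.mk_surjective z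
      obtain ⟨z, rfl⟩ := Ideal.Quotient.mk_surjective z
      exact ⟨z, rfl⟩
    let E : Type := {e : (Fin n × Fin m) →₀ ℕ // e.degree < k}
    have hE : Finite E := Finsupp.finite_of_degree_lt k
    let M : (E → K) →ₗ[K] MvPowerSeries (Fin n × Fin m) K :=
      { toFun := fun c e => if he : e.degree < k then c ⟨e, he⟩ else 0
        map_add' := by
          intro c c'
          funext e
          change (if he : e.degree < k then (c + c') ⟨e, he⟩ else 0) =
            (if he : e.degree < k then c ⟨e, he⟩ else 0) +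
              (if he : e.degree < k then c' ⟨e, he⟩ else 0)
          split_ifs
          · rfl
          · rw [add_zero]
        map_smul' := by
          intro a c
          funext e
          change (if he : e.degree < k then (a • c) ⟨e, he⟩ else 0) =
            a • (if he : e.degree < k then c ⟨e, he⟩ else 0)
          split_ifs
          · rfl
          · rw [smul_zero] }
    have hsurj : Function.Surjective (Λ.comp M) := by
      intro z
      obtain ⟨f, rfl⟩ := hΛ z
      refine ⟨fun e => MvPowerSeries.coeff e.1 f, ?_⟩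
      rw [LinearMap.comp_apply]
      have h1 : Ideal.Quotient.mk (minorIdeal K n m (r + 1))
          (M (fun e => MvPowerSeries.coeff e.1 f) - f) ∈ mIdeal K n m (r + 1) ^ k := by
        refine hpow k _ fun e he => ?_
        rw [map_sub]
        have h2 : MvPowerSeries.coeff e (M (fun e => MvPowerSeries.coeff e.1 f)) =
            if he : e.degree < k then MvPowerSeries.coeff e f else 0 := rfl
        rw [h2, dif_pos he, sub_self]
      have h3 : Λ (M (fun e => MvPowerSeries.coeff e.1 f) - f) = 0 :=
        Ideal.Quotient.eq_zero_iff_mem.2 h1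
      rwa [map_sub, sub_eq_zero] at h3
    exact Module.Finite.of_surjective (Λ.comp M) hsurj
  refine ⟨hfin, ?_⟩
  -- the generic matrix of rank `r`
  let ω : Type := {v : Fin n × Fin m // (v.1 : ℕ) < r ∨ (v.2 : ℕ) < r}
  have hcard : Nat.card ω = r * (n + m - r) := by
    rw [Nat.card_eq_fintype_card, Fintype.card_subtype, card_W r hrn.le hrm.le]
  let L : Type := FractionRing (MvPolynomial ω K)
  let x : ω → L := fun w => algebraMap (MvPolynomial ω K) L (MvPolynomial.X w)
  have hx : AlgebraicIndependent K x := by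
    have h1 := MvPolynomial.algebraicIndependent_X ω K
    have h2 := (AlgHom.algebraicIndependent_iff (IsScalarTower.toAlgHom K (MvPolynomial ω K) L)
      (IsFractionRing.injective (MvPolynomial ω K) L)).2 h1
    exact h2
  let x' : Fin n × Fin m → MvPolynomial ω K := fun v =>
    if hv : (v.1 : ℕ) < r ∨ (v.2 : ℕ) < r then MvPolynomial.X ⟨v, hv⟩ else 0
  have hdet : (Matrix.of fun (a b : Fin r) =>
      algebraMap (MvPolynomial ω K) L (x' (Fin.castLE hrn.le a, Fin.castLE hrm.le b))).det ≠ 0 := by
    have h1 : (Matrix.of fun (a b : Fin r) =>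
        x' (Fin.castLE hrn.le a, Fin.castLE hrm.le b)).det ≠ 0 := by
      intro h2
      have h3 := congrArg (MvPolynomial.eval fun w : ω =>
        if (w.1.1 : ℕ) = w.1.2 then (1 : K) else 0) h2
      rw [RingHom.map_det, map_zero] at h3
      have h4 : (MvPolynomial.eval fun w : ω =>
          if (w.1.1 : ℕ) = w.1.2 then (1 : K) else 0).mapMatrix (Matrix.of fun (a b : Fin r) =>
            x' (Fin.castLE hrn.le a, Fin.castLE hrm.le b)) = 1 := by
        ext a b
        simp only [RingHom.mapMatrix_apply, Matrix.map_apply, Matrix.of_apply, x']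
        rw [dif_pos (Or.inl (by simp))]
        rw [MvPolynomial.eval_X, Matrix.one_apply]
        simp only [Fin.val_castLE, Fin.ext_iff]
      rw [h4, Matrix.det_one] at h3
      exact one_ne_zero h3
    have h5 := RingHom.map_det (algebraMap (MvPolynomial ω K) L) (Matrix.of fun (a b : Fin r) =>
        x' (Fin.castLE hrn.le a, Fin.castLE hrm.le b))
    intro h6
    apply h1
    apply IsFractionRing.injective (MvPolynomial ω K) L
    rw [map_zero, h5]
    exact h6
  obtain ⟨y, hyx, hy⟩ := exists_rank hrn.le hrm.le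
    (fun v => algebraMap (MvPolynomial ω K) L (x' v)) hdet
  have hyw : ∀ w : ω, y w.1 = x w := by
    intro w
    rw [hyx w.1 w.2]
    simp only [x']
    rw [dif_pos w.2]
  have hind : LinearIndependent K (fun e : {e : ω →₀ ℕ // e.degree < k} =>
      (Ideal.Quotient.mk (mIdeal K n m (r + 1) ^ k)
        (Ideal.Quotient.mk (minorIdeal K n m (r + 1))
          ((MvPolynomial.rename Subtype.val (MvPolynomial.monomial e.1 (1 : K)) :
            MvPolynomial (Fin n × Fin m) K) : MvPowerSeries (Fin n × Fin m) K)) :
        DetRing K n m (r + 1) ⧸ mIdeal K n m (r + 1) ^ k)) := by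
    apply LinearIndependent.of_comp (Xi K n m r k y hy).toLinearMap
    have h1 := indep K ω L x hx k
    have h2 : (fun e : {e : ω →₀ ℕ // e.degree < k} =>
      (Ideal.Quotient.mk (Ideal.span {(Polynomial.X : Polynomial L) ^ k})
        (MvPolynomial.aeval (fun w => Polynomial.C (x w) * Polynomial.X)
          (MvPolynomial.monomial e.1 (1 : K))))) =
        (Xi K n m r k y hy).toLinearMap ∘ (fun e : {e : ω →₀ ℕ // e.degree < k} =>
      (Ideal.Quotient.mk (mIdeal K n m (r + 1) ^ k)
        (Ideal.Quotient.mk (minorIdeal K n m (r + 1))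
          ((MvPolynomial.rename Subtype.val (MvPolynomial.monomial e.1 (1 : K)) :
            MvPolynomial (Fin n × Fin m) K) : MvPowerSeries (Fin n × Fin m) K)) :
        DetRing K n m (r + 1) ⧸ mIdeal K n m (r + 1) ^ k)) := by
      funext e
      have h3 := Phi_coe K n m k y
        (MvPolynomial.rename Subtype.val (MvPolynomial.monomial e.1 (1 : K)))
      have h4 : rho K n m y (MvPolynomial.rename Subtype.val
          (MvPolynomial.monomial e.1 (1 : K))) =
          MvPolynomial.aeval (fun w => Polynomial.C (x w) * Polynomial.X)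
          (MvPolynomial.monomial e.1 (1 : K)) := by
        unfold rho
        rw [MvPolynomial.aeval_rename]
        congr 2
        funext w
        rw [Function.comp_apply, hyw]
      rw [h4] at h3
      exact h3.symm
    rw [← h2]
    exact h1
  have hEfin : Finite {e : ω →₀ ℕ // e.degree < k} := Finsupp.finite_of_degree_lt k
  have := Fintype.ofFinite {e : ω →₀ ℕ // e.degree < k}
  have h1 := hind.fintype_card_le_finrank
  rw [← Nat.card_eq_fintype_card] at h1
  have h2 := pow_le_card ω k (by
    rw [hcard]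
    have : 1 ≤ n + m - r := by omega
    exact Nat.mul_pos (by omega) this)
  rw [hcard] at h2
  exact h2.trans (Nat.mul_le_mul_left _ h1)

end Pool.Agent.Q56.DT
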