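import Pool.Agent.Q55.DT.Stm

/-! Project DT (helper55), job GRID (helper56): subsets of the grid without long chains (the longest
chain is computed as a longest common subsequence). -/

set_option autoImplicit false

namespace Pool.Agent.Q56.DT

open Pool.Agent.Q55.DT

/-- one row of the table -/
def row (G : ℕ → Prop) [DecidablePred G] (prev : ℕ → ℕ) : ℕ → ℕ
  | 0 => 0
  | j + 1 => max (max (prev (j + 1)) (row G prev j)) (prev j + if G j then 1 else 0)

/-- the length of the longest chain of `G` in `[0, i) × [0, j)` -/
def lc (G : ℕ → ℕ → Prop) [∀ i j, Decidable (G i j)] : ℕ → ℕ → ℕ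
  | 0 => fun _ => 0
  | i + 1 => row (G i) (lc G i)

section

variable (G : ℕ → ℕ → Prop) [∀ i j, Decidable (G i j)]

theorem lc_zero_left (j : ℕ) : lc G 0 j = 0 := rfl

theorem lc_zero_right (i : ℕ) : lc G i 0 = 0 := by
  cases i <;> rfl

theorem lc_succ (i j : ℕ) : lc G (i + 1) (j + 1) =
    max (max (lc G i (j + 1)) (lc G (i + 1) j)) (lc G i j + if G i j then 1 else 0) := rfl

theorem lc_left (i j : ℕ) : lc G i j ≤ lc G (i + 1) j := by
  cases j with
  | zero => rw [lc_zero_right, lc_zero_right]
  | succ j => rw [lc_succ]; exact (le_max_left _ _).trans (le_max_left _ _)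

theorem lc_right (i j : ℕ) : lc G i j ≤ lc G i (j + 1) := by
  cases i with
  | zero => rfl
  | succ i => rw [lc_succ]; exact (le_max_right _ _).trans (le_max_left _ _)

theorem lc_mono {i i' j j' : ℕ} (hi : i ≤ i') (hj : j ≤ j') : lc G i j ≤ lc G i' j' := by
  have h1 : lc G i j ≤ lc G i' j := by
    induction hi with
    | refl => exact le_rfl
    | step _ ih => exact ih.trans (lc_left G _ _)
  refine h1.trans ?_
  induction hj with
  | refl => exact le_rfl
  | step _ ih => exact ih.trans (lc_right G _ _)

theorem lc_diag (i j : ℕ) : lc G i j ≤ lc G (i + 1) (j + 1) :=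
  lc_mono G (Nat.le_succ i) (Nat.le_succ j)

theorem lc_mem (i j : ℕ) (h : G i j) : lc G i j + 1 ≤ lc G (i + 1) (j + 1) := by
  rw [lc_succ, if_pos h]
  exact le_max_right _ _

theorem lc_step : ∀ N i j : ℕ, i + j = N → lc G (i + 1) (j + 1) ≤ lc G i j + 1 := by
  intro N
  induction N using Nat.strong_induction_on with
  | _ N ih =>
    intro i j hij
    rw [lc_succ]
    refine max_le (max_le ?_ ?_) ?_
    · cases i with
      | zero => exact Nat.zero_le _
      | succ i =>
        exact (ih (i + j) (by omega) i j rfl).trans
          (Nat.add_le_add_right (lc_left G i j) 1)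
    · cases j with
      | zero => rw [lc_zero_right]; exact Nat.zero_le _
      | succ j =>
        exact (ih (i + j) (by omega) i j rfl).trans
          (Nat.add_le_add_right (lc_right G i j) 1)
    · split_ifs <;> omega

theorem lc_le (i j : ℕ) : lc G (i + 1) (j + 1) ≤ lc G i j + 1 := lc_step G _ i j rfl

theorem lc_le_left : ∀ i j : ℕ, lc G i j ≤ i := by
  intro i
  induction i with
  | zero => exact fun j => le_rfl
  | succ i ih =>
    intro j
    cases j with
    | zero => rw [lc_zero_right]; exact Nat.zero_le _
    | succ j => exact (lc_le G i j).trans (Nat.add_le_add_right (ih j) 1)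

theorem lc_le_right : ∀ j i : ℕ, lc G i j ≤ j := by
  intro j
  induction j with
  | zero => exact fun i => (lc_zero_right G i).le
  | succ j ih =>
    intro i
    cases i with
    | zero => exact Nat.zero_le _
    | succ i => exact (lc_le G i j).trans (Nat.add_le_add_right (ih i) 1)

/-- `G` has a chain of length `k` in `[0, i) × [0, j)` -/
def HasChain (k i j : ℕ) : Prop :=
  ∃ a b : ℕ → ℕ, (∀ t, t + 1 < k → a t < a (t + 1)) ∧ (∀ t, t + 1 < k → b t < b (t + 1)) ∧
    ∀ t < k, G (a t) (b t) ∧ a t < i ∧ b t < j

omit [∀ i j, Decidable (G i j)] in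
theorem HasChain.mono {k k' i i' j j' : ℕ} (h : HasChain G k i j) (hk : k' ≤ k) (hi : i ≤ i')
    (hj : j ≤ j') : HasChain G k' i' j' := by
  obtain ⟨a, b, ha, hb, hab⟩ := h
  exact ⟨a, b, fun t ht => ha t (by omega), fun t ht => hb t (by omega), fun t ht =>
    ⟨(hab t (by omega)).1, (hab t (by omega)).2.1.trans_le hi,
      (hab t (by omega)).2.2.trans_le hj⟩⟩

theorem hasChain : ∀ N i j : ℕ, i + j = N → HasChain G (lc G i j) i j := by
  intro N
  induction N using Nat.strong_induction_on with
  | _ N ih =>
    intro i j hij
    cases i with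
    | zero =>
      rw [lc_zero_left]
      exact ⟨fun t => t, fun t => t, fun t ht => by omega, fun t ht => by omega,
        fun t ht => by omega⟩
    | succ i =>
      cases j with
      | zero =>
        rw [lc_zero_right]
        exact ⟨fun t => t, fun t => t, fun t ht => by omega, fun t ht => by omega,
          fun t ht => by omega⟩
      | succ j =>
        have h1 : HasChain G (lc G i (j + 1)) (i + 1) (j + 1) :=
          (ih (i + (j + 1)) (by omega) i (j + 1) rfl).mono G le_rfl (by omega) le_rfl
        have h2 : HasChain G (lc G (i + 1) j) (i + 1) (j + 1) :=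
          (ih (i + 1 + j) (by omega) (i + 1) j rfl).mono G le_rfl le_rfl (by omega)
        have h3 : HasChain G (lc G i j + if G i j then 1 else 0) (i + 1) (j + 1) := by
          have h4 := ih (i + j) (by omega) i j rfl
          split_ifs with hG
          · obtain ⟨a, b, ha, hb, hab⟩ := h4
            refine ⟨fun t => if t < lc G i j then a t else i,
              fun t => if t < lc G i j then b t else j, fun t ht => ?_, fun t ht => ?_,
              fun t ht => ?_⟩
            · dsimp only
              rw [if_pos (by omega)]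
              split_ifs with h5
              · exact ha t h5
              · exact (hab t (by omega)).2.1
            · dsimp only
              rw [if_pos (by omega)]
              split_ifs with h5
              · exact hb t h5
              · exact (hab t (by omega)).2.2
            · dsimp only
              split_ifs with h5
              · have h6 := hab t h5
                exact ⟨h6.1, by omega, by omega⟩
              · exact ⟨hG, by omega, by omega⟩
          · rw [add_zero]
            exact h4.mono G le_rfl (by omega) (by omega)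
        rw [lc_succ]
        rcases max_choice (max (lc G i (j + 1)) (lc G (i + 1) j))
          (lc G i j + if G i j then 1 else 0) with h | h
        · rw [h]
          rcases max_choice (lc G i (j + 1)) (lc G (i + 1) j) with h' | h'
          · rw [h']; exact h1
          · rw [h']; exact h2
        · rw [h]; exact h3

end

section sums

theorem sum1 (r : ℕ) : ∀ N, r ≤ N → 2 * ∑ i ∈ Finset.range N, min r i + r * (r + 1) =
    2 * (r * N) := by
  intro N hN
  induction hN with
  | refl =>
    have h1 : ∑ i ∈ Finset.range r, min r i = ∑ i ∈ Finset.range r, i :=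
      Finset.sum_congr rfl fun i hi => min_eq_right (Finset.mem_range.1 hi).le
    have h2 := Finset.sum_range_id_mul_two r
    rw [h1]
    cases r with
    | zero => simp
    | succ r =>
      rw [Nat.add_sub_cancel] at h2
      nlinarith
  | @step N hN ih =>
    rw [Finset.sum_range_succ, min_eq_left (show r ≤ N from hN)]
    rw [Nat.succ_eq_add_one]
    nlinarith

theorem sum2 (r : ℕ) : ∀ N, r ≤ N → 2 * ∑ i ∈ Finset.range N, min r (i + 1) + r * r =
    2 * (r * N) + r := by
  intro N hN
  induction hN with
  | refl =>
    have h1 : ∑ i ∈ Finset.range r, min r (i + 1) = ∑ i ∈ Finset.range r, (i + 1) :=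
      Finset.sum_congr rfl fun i hi => min_eq_right (Finset.mem_range.1 hi)
    have h2 := Finset.sum_range_id_mul_two r
    rw [h1, Finset.sum_add_distrib, Finset.sum_const, Finset.card_range, smul_eq_mul, mul_one]
    cases r with
    | zero => simp
    | succ r =>
      rw [Nat.add_sub_cancel] at h2
      nlinarith
  | @step N hN ih =>
    rw [Finset.sum_range_succ, min_eq_left (show r ≤ N + 1 from (show r ≤ N from hN).trans
      (Nat.le_succ N))]
    rw [Nat.succ_eq_add_one]
    nlinarith

theorem sum12 (n m r : ℕ) (hn : r ≤ n) (hm : r ≤ m) :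
    ∑ i ∈ Finset.range n, min r i + ∑ j ∈ Finset.range m, min r (j + 1) = r * (n + m - r) := by
  have h1 := sum1 r n hn
  have h2 := sum2 r m hm
  obtain ⟨n', rfl⟩ := Nat.exists_eq_add_of_le hn
  obtain ⟨m', rfl⟩ := Nat.exists_eq_add_of_le hm
  have h3 : r + n' + (r + m') - r = r + n' + m' := by omega
  rw [h3]
  nlinarith

/-- telescoping along the diagonals -/
theorem tele (f : ℕ → ℕ → ℕ) (h0 : ∀ j, f 0 j = 0) (h0' : ∀ i, f i 0 = 0) (n m : ℕ) :
    ∑ i ∈ Finset.range n, ∑ j ∈ Finset.range m, f (i + 1) (j + 1) =
      ∑ i ∈ Finset.range n, ∑ j ∈ Finset.range m, f i j +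
        (∑ i ∈ Finset.range n, f i m + ∑ j ∈ Finset.range m, f n (j + 1)) := by
  have h1 : ∀ i, ∑ j ∈ Finset.range m, f i (j + 1) = ∑ j ∈ Finset.range m, f i j + f i m := by
    intro i
    have h2 := Finset.sum_range_succ (f i) m
    have h3 := Finset.sum_range_succ' (f i) m
    rw [h0', add_zero] at h3
    rw [← h3, h2]
  have h4 := Finset.sum_range_succ (fun i => ∑ j ∈ Finset.range m, f i (j + 1)) n
  have h5 := Finset.sum_range_succ' (fun i => ∑ j ∈ Finset.range m, f i (j + 1)) n
  have h6 : ∑ j ∈ Finset.range m, f 0 (j + 1) = 0 := Finset.sum_eq_zero fun j _ => h0 _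
  rw [h6, add_zero] at h5
  rw [← h5, h4, Finset.sum_congr rfl fun i _ => h1 i, Finset.sum_add_distrib]
  ring

end sums

section main

variable {n m : ℕ}

/-- a subset of the grid as a relation -/
def rel (G : Finset (Fin n × Fin m)) (i j : ℕ) : Prop :=
  ∃ (hi : i < n) (hj : j < m), ((⟨i, hi⟩, ⟨j, hj⟩) : Fin n × Fin m) ∈ G

theorem rel_iff (G : Finset (Fin n × Fin m)) (v : Fin n × Fin m) : rel G v.1 v.2 ↔ v ∈ G := by
  constructor
  · rintro ⟨_, _, h⟩
    exact h
  · intro h
    exact ⟨v.1.2, v.2.2, h⟩

open Classical in
/-- the elements where the longest chain increases -/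
noncomputable def FF (G : Finset (Fin n × Fin m)) : Finset (Fin n × Fin m) :=
  Finset.univ.filter fun v =>
    lc (rel G) (v.1 + 1) (v.2 + 1) = lc (rel G) v.1 v.2 + 1

open Classical in
theorem mem_FF (G : Finset (Fin n × Fin m)) (v : Fin n × Fin m) : v ∈ FF G ↔
    lc (rel G) (v.1 + 1) (v.2 + 1) = lc (rel G) v.1 v.2 + 1 := by
  simp [FF]

open Classical in
theorem subset_FF (G : Finset (Fin n × Fin m)) : G ⊆ FF G := by
  intro v hv
  rw [mem_FF]
  exact le_antisymm (lc_le _ _ _) (lc_mem _ _ _ ((rel_iff G v).2 hv))

open Classical in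
theorem card_FF (G : Finset (Fin n × Fin m)) : (FF G).card =
    ∑ i ∈ Finset.range n, lc (rel G) i m + ∑ j ∈ Finset.range m, lc (rel G) n (j + 1) := by
  have h1 := tele (lc (rel G)) (lc_zero_left _) (lc_zero_right _) n m
  have h2 : (FF G).card + ∑ i ∈ Finset.range n, ∑ j ∈ Finset.range m, lc (rel G) i j =
      ∑ i ∈ Finset.range n, ∑ j ∈ Finset.range m, lc (rel G) (i + 1) (j + 1) := by
    have h3 : ∀ f : ℕ → ℕ → ℕ, ∑ i ∈ Finset.range n, ∑ j ∈ Finset.range m, f i j =
        ∑ v : Fin n × Fin m, f v.1 v.2 := by
      intro f
      rw [Fintype.sum_prod_type, Finset.sum_range]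
      refine Finset.sum_congr rfl fun i _ => ?_
      rw [Finset.sum_range]
    rw [h3, h3, FF, Finset.card_filter, ← Finset.sum_add_distrib]
    refine Finset.sum_congr rfl fun v _ => ?_
    have h4 := lc_le (rel G) v.1 v.2
    have h5 := lc_diag (rel G) v.1 v.2
    split_ifs with h <;> omega
  omega

open Classical in
theorem lc_le_of_chainFree {r : ℕ} {G : Finset (Fin n × Fin m)} (hG : ChainFree r G)
    (i j : ℕ) (hi : i ≤ n) (hj : j ≤ m) : lc (rel G) i j ≤ r := by
  by_contra hcon
  push Not at hcon
  obtain ⟨a, b, ha, hb, hab⟩ := (hasChain (rel G) _ i j rfl).mono (rel G)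
    (show r + 1 ≤ lc (rel G) i j from hcon) hi hj
  obtain ⟨k, hk⟩ := hG (fun k => ⟨a k, (hab k k.2).2.1⟩) (fun k => ⟨b k, (hab k k.2).2.2⟩) (by
    rw [Fin.strictMono_iff_lt_succ]
    intro k
    exact ha k (by have := k.2; omega)) (by
    rw [Fin.strictMono_iff_lt_succ]
    intro k
    exact hb k (by have := k.2; omega))
  obtain ⟨_, _, h⟩ := (hab k k.2).1
  exact hk h

open Classical in
theorem chainFree_FF {r : ℕ} {G : Finset (Fin n × Fin m)} (hG : ChainFree r G) :
    ChainFree r (FF G) := by
  intro a b ha hb
  by_contra hcon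
  push Not at hcon
  have h1 : ∀ k : Fin (r + 1), (k : ℕ) + 1 ≤ lc (rel G) (a k + 1) (b k + 1) := by
    intro k
    induction k using Fin.induction with
    | zero =>
      rw [(mem_FF G _).1 (hcon 0)]
      simp
    | succ k ih =>
      rw [(mem_FF G _).1 (hcon k.succ)]
      have h2 : (a k.castSucc : ℕ) + 1 ≤ a k.succ := ha (Fin.castSucc_lt_succ)
      have h3 : (b k.castSucc : ℕ) + 1 ≤ b k.succ := hb (Fin.castSucc_lt_succ)
      have h4 := lc_mono (rel G) h2 h3
      have h5 : ((k.castSucc : Fin (r + 1)) : ℕ) = k := rfl
      rw [h5] at ih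
      have h6 : ((k.succ : Fin (r + 1)) : ℕ) = k + 1 := Fin.val_succ k
      rw [h6]
      dsimp only at *
      omega
  have h2 := h1 (Fin.last r)
  have h3 := lc_le_of_chainFree hG (a (Fin.last r) + 1) (b (Fin.last r) + 1)
    (a (Fin.last r)).2 (b (Fin.last r)).2
  rw [Fin.val_last] at h2
  omega

theorem strictMono_add {r : ℕ} {a : Fin (r + 1) → Fin n} (ha : StrictMono a) :
    ∀ (d : ℕ) (k l : Fin (r + 1)), (l : ℕ) = k + d → (a k : ℕ) + d ≤ a l := by
  intro d
  induction d with
  | zero =>
    intro k l h
    have : k = l := Fin.ext h.symm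
    rw [this, add_zero]
  | succ d ih =>
    intro k l h
    have hl := l.2
    have h1 := ih k ⟨k + d, by omega⟩ rfl
    have h2 : a ⟨k + d, by omega⟩ < a l := ha (by
      change (k : ℕ) + d < l
      omega)
    have h3 : (a ⟨k + d, by omega⟩ : ℕ) < a l := h2
    omega

end main

open Classical in
theorem grid : S_Grid := by
  intro n m r _ hrn hrm
  constructor
  · intro G hG
    refine (Finset.card_le_card (subset_FF G)).trans ?_
    rw [card_FF, ← sum12 n m r hrn hrm]
    refine Nat.add_le_add (Finset.sum_le_sum fun i hi => ?_) (Finset.sum_le_sum fun j hj => ?_)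
    · exact le_min (lc_le_of_chainFree hG i m (Finset.mem_range.1 hi).le le_rfl)
        (lc_le_left _ i m)
    · exact le_min (lc_le_of_chainFree hG n (j + 1) le_rfl (Finset.mem_range.1 hj))
        (lc_le_right _ _ _)
  · intro G hG
    let G' : Finset (Fin n × Fin m) := G ∪ Finset.univ.filter fun v : Fin n × Fin m =>
      min (v.1 : ℕ) v.2 + 1 + min (n - 1 - (v.1 : ℕ)) (m - 1 - (v.2 : ℕ)) ≤ r
    have hG' : ChainFree r G' := by
      intro a b ha hb
      obtain ⟨k, hk⟩ := hG a b ha hb
      by_contra hcon
      push Not at hcon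
      rcases Finset.mem_union.1 (hcon k) with h | h
      · exact hk h
      · have h1 := (Finset.mem_filter.1 h).2
        have h2 := strictMono_add ha k 0 k (by simp)
        have h3 := strictMono_add hb k 0 k (by simp)
        have hk' := k.2
        have h4 := strictMono_add ha (r - k) k (Fin.last r) (by rw [Fin.val_last]; omega)
        have h5 := strictMono_add hb (r - k) k (Fin.last r) (by rw [Fin.val_last]; omega)
        have h6 := (a (Fin.last r)).2
        have h7 := (b (Fin.last r)).2
        dsimp only at h1
        omega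
    refine ⟨FF G', (Finset.subset_union_left).trans (subset_FF G'), chainFree_FF hG', ?_⟩
    have hmem : ∀ (i j : ℕ) (hi : i < n) (hj : j < m),
        min i j + 1 + min (n - 1 - i) (m - 1 - j) ≤ r → rel G' i j := by
      intro i j hi hj h
      refine ⟨hi, hj, Finset.mem_union_right _ (Finset.mem_filter.2 ⟨Finset.mem_univ _, h⟩)⟩
    apply le_antisymm
    · rw [card_FF, ← sum12 n m r hrn hrm]
      refine Nat.add_le_add (Finset.sum_le_sum fun i hi => ?_)
        (Finset.sum_le_sum fun j hj => ?_)
      · exact le_min (lc_le_of_chainFree hG' i m (Finset.mem_range.1 hi).le le_rfl)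
          (lc_le_left _ i m)
      · exact le_min (lc_le_of_chainFree hG' n (j + 1) le_rfl (Finset.mem_range.1 hj))
          (lc_le_right _ _ _)
    · rw [card_FF, ← sum12 n m r hrn hrm]
      refine Nat.add_le_add (Finset.sum_le_sum fun i hi => ?_)
        (Finset.sum_le_sum fun j hj => ?_)
      · have hi' := Finset.mem_range.1 hi
        have h1 : ∀ t ≤ min r i, t ≤ lc (rel G') t (m - min r i + t) := by
          intro t
          induction t with
          | zero => exact fun _ => Nat.zero_le _
          | succ t ih =>
            intro ht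
            have h2 := ih (by omega)
            have h3 := lc_mem (rel G') t (m - min r i + t)
              (hmem _ _ (by omega) (by omega) (by omega))
            have h4 : m - min r i + (t + 1) = m - min r i + t + 1 := by omega
            rw [h4]
            omega
        have h2 := h1 (min r i) le_rfl
        have h3 : m - min r i + min r i = m := by omega
        rw [h3] at h2
        exact h2.trans (lc_mono _ (min_le_right _ _) le_rfl)
      · have hj' := Finset.mem_range.1 hj
        have h1 : ∀ t ≤ min r (j + 1), t ≤ lc (rel G') (n - min r (j + 1) + t) t := by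
          intro t
          induction t with
          | zero => exact fun _ => Nat.zero_le _
          | succ t ih =>
            intro ht
            have h2 := ih (by omega)
            have h3 := lc_mem (rel G') (n - min r (j + 1) + t) t
              (hmem _ _ (by omega) (by omega) (by omega))
            have h4 : n - min r (j + 1) + (t + 1) = n - min r (j + 1) + t + 1 := by omega
            rw [h4]
            omega
        have h2 := h1 (min r (j + 1)) le_rfl
        have h3 : n - min r (j + 1) + min r (j + 1) = n := by omega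
        rw [h3] at h2
        exact h2.trans (lc_mono _ le_rfl (min_le_right _ _))

end Pool.Agent.Q56.DT
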