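import Pool.Agent.Q56.DT.Grid

/-! Project DT (helper55), job MULT (helper56): few maximal chain-free sets contain a given set. -/

set_option autoImplicit false

namespace Pool.Agent.Q56.DT

open Pool.Agent.Q55.DT

/-- the properties of the table of a maximal chain-free set -/
structure Fac (n m r : ℕ) (f : ℕ → ℕ → ℕ) : Prop where
  zl : ∀ j, f 0 j = 0
  zr : ∀ i, f i 0 = 0
  left : ∀ i j, f i j ≤ f (i + 1) j
  right : ∀ i j, f i j ≤ f i (j + 1)
  step : ∀ i j, f (i + 1) (j + 1) ≤ f i j + 1
  le : ∀ i j, f i j ≤ r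
  lei : ∀ i j, f i j ≤ i
  em : ∀ i j, m ≤ j → f i j = min r i
  en : ∀ i j, n ≤ i → f i j = min r j

/-- the diagonal increases at `(i, j)` -/
def Ph (f : ℕ → ℕ → ℕ) (i j : ℕ) : Prop := f (i + 1) (j + 1) = f i j + 1

section

variable {n m r : ℕ} {f : ℕ → ℕ → ℕ} (hf : Fac n m r f)

include hf in
theorem Fac.not_ph {i j : ℕ} (h : ¬ Ph f i j) : f (i + 1) (j + 1) = f i j := by
  have h1 := hf.step i j
  have h2 := (hf.left i j).trans (hf.right (i + 1) j)
  unfold Ph at h
  omega

include hf in
theorem Fac.walkA : ∀ i j : ℕ, Ph f i j → f (i + 1) (j + 1) = f (i + 1) j →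
    (∃ t p q, 1 ≤ t ∧ i = p + t ∧ j = q + t ∧ ¬ Ph f p q ∧
      ∀ u < t, Ph f (p + 1 + u) (q + u)) ∨ f (i + 1) j = i + 1 := by
  intro i
  induction i with
  | zero =>
    intro j h1 h2
    right
    rw [← h2, h1, hf.zl]
  | succ i ih =>
    intro j h1 h2
    cases j with
    | zero =>
      unfold Ph at h1
      rw [hf.zr] at h1 h2
      omega
    | succ j =>
      unfold Ph at h1
      have h3 := hf.step (i + 1) j
      have h4 := hf.right (i + 1) j
      have h5 : f (i + 1) (j + 1) = f (i + 1) j := by omega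
      have h6 : Ph f (i + 1) j := by
        unfold Ph
        omega
      by_cases h7 : Ph f i j
      · rcases ih j h7 h5 with ⟨t, p, q, ht, hi, hj, hpq, hu⟩ | h8
        · left
          refine ⟨t + 1, p, q, by omega, by omega, by omega, hpq, fun u hu' => ?_⟩
          rcases Nat.lt_succ_iff_lt_or_eq.1 hu' with h9 | h9
          · exact hu u h9
          · have e1 : p + 1 + u = i + 1 := by omega
            have e2 : q + u = j := by omega
            rw [e1, e2]
            exact h6
        · right
          unfold Ph at h6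
          omega
      · left
        refine ⟨1, i, j, le_rfl, rfl, rfl, h7, fun u hu => ?_⟩
        have : u = 0 := by omega
        subst this
        exact h6

include hf in
theorem Fac.walkB : ∀ N i j : ℕ, r - f i j = N → Ph f i j → f (i + 1) (j + 1) = f (i + 1) j + 1 →
    ∃ t, 1 ≤ t ∧ ¬ Ph f (i + t) (j + t) ∧ ∀ u < t, Ph f (i + 1 + u) (j + u) := by
  intro N
  induction N using Nat.strong_induction_on with
  | _ N ih =>
    intro i j hN h1 h2
    unfold Ph at h1
    have h3 := hf.step (i + 1) j
    have h4 := hf.left (i + 1) (j + 1)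
    have h5 : Ph f (i + 1) j := by
      unfold Ph
      omega
    by_cases h6 : Ph f (i + 1) (j + 1)
    · have h7 := hf.le (i + 1) (j + 1)
      unfold Ph at h5
      obtain ⟨t, ht, hnot, hu⟩ := ih (r - f (i + 1) (j + 1)) (by omega) (i + 1) (j + 1) rfl h6 (by
        unfold Ph at h6
        omega)
      refine ⟨t + 1, by omega, ?_, fun u hu' => ?_⟩
      · have e1 : i + (t + 1) = i + 1 + t := by omega
        have e2 : j + (t + 1) = j + 1 + t := by omega
        rw [e1, e2]
        exact hnot
      · cases u with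
        | zero => exact h5
        | succ u =>
          have h8 := hu u (by omega)
          have e1 : i + 1 + 1 + u = i + 1 + (u + 1) := by omega
          have e2 : j + 1 + u = j + (u + 1) := by omega
          rw [e1, e2] at h8
          exact h8
    · refine ⟨1, le_rfl, h6, fun u hu => ?_⟩
      have : u = 0 := by omega
      subst this
      exact h5

include hf in
theorem Fac.lemP (p q t : ℕ) (ht : 1 ≤ t) (h : ∀ u < t, Ph f (p + 1 + u) (q + u)) :
    Ph f p q ∨ Ph f (p + t) (q + t) := by
  by_contra hcon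
  push Not at hcon
  have h1 := hf.not_ph hcon.1
  have h2 := hf.not_ph hcon.2
  have h3 : ∀ u ≤ t, f (p + 1 + u) (q + u) = f (p + 1) q + u := by
    intro u
    induction u with
    | zero => exact fun _ => rfl
    | succ u ih =>
      intro hu
      have h4 := h u (by omega)
      unfold Ph at h4
      have e1 : p + 1 + (u + 1) = p + 1 + u + 1 := by omega
      have e2 : q + (u + 1) = q + u + 1 := by omega
      rw [e1, e2, h4, ih (by omega)]
      omega
  have h4 : ∀ u, f (p + 1 + u) (q + 1 + u) ≤ f p q + u := by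
    intro u
    induction u with
    | zero => exact h1.le
    | succ u ih =>
      have h5 := hf.step (p + 1 + u) (q + 1 + u)
      have e1 : p + 1 + (u + 1) = p + 1 + u + 1 := by omega
      have e2 : q + 1 + (u + 1) = q + 1 + u + 1 := by omega
      rw [e1, e2]
      omega
  have h5 := h3 t le_rfl
  have h6 := h4 (t - 1)
  have h7 := hf.right (p + 1 + t) (q + t)
  have h8 := hf.left p q
  have e1 : p + 1 + (t - 1) = p + t := by omega
  have e2 : q + 1 + (t - 1) = q + t := by omega
  have e3 : p + 1 + t = p + t + 1 := by omega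
  rw [e1, e2] at h6
  rw [e3] at h5 h7
  omega

/-- two tables with the same increments on a diagonal agree there -/
theorem Fac.agree {f₀ : ℕ → ℕ → ℕ} (hf : Fac n m r f) (hf₀ : Fac n m r f₀) (c c' : ℕ)
    (h : ∀ x y, y + c = x + c' → Ph f₀ x y → Ph f x y) :
    ∀ x y, y + c = x + c' → f x y = f₀ x y := by
  have h1 : ∀ x y, y + c = x + c' → f₀ x y ≤ f x y := by
    intro x
    induction x with
    | zero => intro y _; rw [hf.zl, hf₀.zl]
    | succ x ih =>
      intro y hy
      cases y with
      | zero => rw [hf.zr, hf₀.zr]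
      | succ y =>
        have h2 := ih y (by omega)
        by_cases h3 : Ph f₀ x y
        · have h4 := h x y (by omega) h3
          unfold Ph at h3 h4
          omega
        · have h4 := hf₀.not_ph h3
          have h5 := (hf.left x y).trans (hf.right (x + 1) y)
          omega
  have h2 : ∀ N x y, n ≤ x + N → y + c = x + c' → f x y ≤ f₀ x y := by
    intro N
    induction N with
    | zero =>
      intro x y hx _
      rw [hf.en x y hx, hf₀.en x y hx]
    | succ N ih =>
      intro x y hx hy
      have h3 := ih (x + 1) (y + 1) (by omega) (by omega)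
      by_cases h4 : Ph f₀ x y
      · have h5 := h x y (by omega) h4
        unfold Ph at h4 h5
        omega
      · have h5 := hf₀.not_ph h4
        have h6 := (hf.left x y).trans (hf.right (x + 1) y)
        omega
  intro x y hxy
  exact le_antisymm (h2 n x y (by omega) hxy) (h1 x y hxy)

end

section lcr

variable {n m : ℕ}

open Classical in
theorem lc_const_right (G : Finset (Fin n × Fin m)) (j : ℕ) (hj : m ≤ j) :
    ∀ i, lc (rel G) i (j + 1) = lc (rel G) i j := by
  intro i
  induction i with
  | zero => rfl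
  | succ i ih =>
    rw [lc_succ, ih, if_neg (fun h => by obtain ⟨_, h2, _⟩ := h; omega)]
    have h1 := lc_left (rel G) i j
    omega

open Classical in
theorem lc_const_left (G : Finset (Fin n × Fin m)) (i : ℕ) (hi : n ≤ i) :
    ∀ j, lc (rel G) (i + 1) j = lc (rel G) i j := by
  intro j
  induction j with
  | zero => rw [lc_zero_right, lc_zero_right]
  | succ j ih =>
    rw [lc_succ, ih, if_neg (fun h => by obtain ⟨h2, _, _⟩ := h; omega)]
    have h1 := lc_right (rel G) i j
    omega

open Classical in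
theorem lc_ge_right (G : Finset (Fin n × Fin m)) (i j : ℕ) (hj : m ≤ j) :
    lc (rel G) i j = lc (rel G) i m := by
  induction hj with
  | refl => rfl
  | @step j hj ih => exact (lc_const_right G j hj i).trans ih

open Classical in
theorem lc_ge_left (G : Finset (Fin n × Fin m)) (i j : ℕ) (hi : n ≤ i) :
    lc (rel G) i j = lc (rel G) n j := by
  induction hi with
  | refl => rfl
  | @step i hi ih => exact (lc_const_left G i hi j).trans ih

open Classical in
theorem fac_of {r : ℕ} (hr : 1 ≤ r) (hrn : r ≤ n) (hrm : r ≤ m) (h : S_Grid)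
    (F : Finset (Fin n × Fin m)) (hF : ChainFree r F) (hcard : F.card = r * (n + m - r)) :
    Fac n m r (lc (rel F)) ∧ ∀ v : Fin n × Fin m, v ∈ F ↔ Ph (lc (rel F)) v.1 v.2 := by
  have h1 : F = FF F := by
    refine Finset.eq_of_subset_of_card_le (subset_FF F) ?_
    rw [hcard]
    exact (h n m r hr hrn hrm).1 _ (chainFree_FF hF)
  have h2 := card_FF F
  rw [← h1, hcard, ← sum12 n m r hrn hrm] at h2
  have h3 : ∀ i ∈ Finset.range n, lc (rel F) i m ≤ min r i := fun i hi =>
    le_min (lc_le_of_chainFree hF i m (Finset.mem_range.1 hi).le le_rfl) (lc_le_left _ i m)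
  have h4 : ∀ j ∈ Finset.range m, lc (rel F) n (j + 1) ≤ min r (j + 1) := fun j hj =>
    le_min (lc_le_of_chainFree hF n (j + 1) le_rfl (Finset.mem_range.1 hj)) (lc_le_right _ _ _)
  have h5 := Finset.sum_le_sum h3
  have h6 := Finset.sum_le_sum h4
  have h7 := (Finset.sum_eq_sum_iff_of_le h3).1 (by omega)
  have h8 := (Finset.sum_eq_sum_iff_of_le h4).1 (by omega)
  have hen : ∀ i j, n ≤ i → lc (rel F) i j = min r j := by
    intro i j hi
    rw [lc_ge_left F i j hi]
    rcases Nat.lt_or_ge m j with hj | hj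
    · rw [lc_ge_right F n j hj.le]
      obtain ⟨m', rfl⟩ : ∃ m', m = m' + 1 := ⟨m - 1, by omega⟩
      rw [h8 m' (Finset.mem_range.2 (by omega))]
      omega
    · cases j with
      | zero => rw [lc_zero_right]; simp
      | succ j => exact h8 j (Finset.mem_range.2 hj)
  refine ⟨⟨lc_zero_left _, lc_zero_right _, lc_left _, lc_right _, lc_le _, ?_, ?_, ?_, hen⟩, ?_⟩
  · intro i j
    have h9 : lc (rel F) i j ≤ lc (rel F) (max i n) j := lc_mono _ (le_max_left _ _) le_rfl
    rw [hen _ _ (le_max_right _ _)] at h9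
    exact h9.trans (min_le_left _ _)
  · exact fun i j => lc_le_left _ i j
  · intro i j hj
    rw [lc_ge_right F i j hj]
    rcases Nat.lt_or_ge i n with hi | hi
    · exact h7 i (Finset.mem_range.2 hi)
    · rw [hen i m hi]
      omega
  · intro v
    conv_lhs => rw [h1]
    exact mem_FF F v

end lcr

open Classical in
/-- the exchange property of the maximal chain-free sets -/
theorem exchange {n m r : ℕ} (hr : 1 ≤ r) (hrn : r ≤ n) (hrm : r ≤ m) (h : S_Grid)
    (G F₀ : Finset (Fin n × Fin m)) (hGF : G ⊆ F₀) (hF₀ : ChainFree r F₀)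
    (hc₀ : F₀.card = r * (n + m - r)) (hne : G ≠ F₀) :
    ∃ v w : Fin n × Fin m, v ∉ G ∧ w ∉ G ∧ ∀ F, G ⊆ F → ChainFree r F →
      F.card = r * (n + m - r) → v ∈ F ∨ w ∈ F := by
  obtain ⟨hf₀, hmem₀⟩ := fac_of hr hrn hrm h F₀ hF₀ hc₀
  set f₀ := lc (rel F₀) with hf₀def
  have hnon : (F₀ \ G).Nonempty := by
    rw [Finset.sdiff_nonempty]
    exact fun h1 => hne (Finset.Subset.antisymm hGF h1)
  obtain ⟨v, hv, hmin⟩ := Finset.exists_min_image (F₀ \ G)
    (fun v => ((v.2 : ℕ) : ℤ) - (v.1 : ℕ)) hnon
  obtain ⟨hvF, hvG⟩ := Finset.mem_sdiff.1 hv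
  have hv1 := v.1.2
  have hv2 := v.2.2
  have hPh := (hmem₀ v).1 hvF
  -- the other facets agree on the previous diagonal
  have hagree : ∀ F, G ⊆ F → ∀ f, Fac n m r f → (∀ u : Fin n × Fin m, u ∈ F ↔ Ph f u.1 u.2) →
      ∀ x y, y + ((v.1 : ℕ) + 1) = x + v.2 → f x y = f₀ x y := by
    intro F hGF' f hf hfmem
    refine Fac.agree hf hf₀ _ _ fun x y hxy hph => ?_
    by_cases hx : x < n
    · by_cases hy : y < m
      · have h1 : ((⟨x, hx⟩, ⟨y, hy⟩) : Fin n × Fin m) ∈ F₀ := (hmem₀ _).2 hph
        have h2 : ((⟨x, hx⟩, ⟨y, hy⟩) : Fin n × Fin m) ∈ G := by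
          by_contra h3
          have h4 := hmin _ (Finset.mem_sdiff.2 ⟨h1, h3⟩)
          dsimp only at h4
          omega
        exact (hfmem _).1 (hGF' h2)
      · unfold Ph at hph ⊢
        rw [hf₀.em _ _ (by omega), hf₀.em _ _ (by omega)] at hph
        rw [hf.em _ _ (by omega), hf.em _ _ (by omega)]
        exact hph
    · unfold Ph at hph ⊢
      rw [hf₀.en _ _ (by omega), hf₀.en _ _ (by omega)] at hph
      rw [hf.en _ _ (by omega), hf.en _ _ (by omega)]
      exact hph
  have hagreePh : ∀ F, G ⊆ F → ∀ f, Fac n m r f →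
      (∀ u : Fin n × Fin m, u ∈ F ↔ Ph f u.1 u.2) →
      ∀ x y, y + ((v.1 : ℕ) + 1) = x + v.2 → (Ph f x y ↔ Ph f₀ x y) := by
    intro F hGF' f hf hfmem x y hxy
    unfold Ph
    rw [hagree F hGF' f hf hfmem x y hxy,
      hagree F hGF' f hf hfmem (x + 1) (y + 1) (by omega)]
  have hdich : f₀ (v.1 + 1) (v.2 + 1) = f₀ (v.1 + 1) v.2 ∨
      f₀ (v.1 + 1) (v.2 + 1) = f₀ (v.1 + 1) v.2 + 1 := by
    have h1 := hf₀.right (v.1 + 1) v.2
    have h2 := hf₀.left v.1 v.2
    unfold Ph at hPh
    omega
  rcases hdich with hA | hB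
  · rcases hf₀.walkA _ _ hPh hA with ⟨t, p, q, ht, hi, hj, hnot, hu⟩ | hbd
    · refine ⟨v, (⟨p, by omega⟩, ⟨q, by omega⟩), hvG, fun hw => hnot ?_, ?_⟩
      · exact (hmem₀ _).1 (hGF hw)
      · intro F hGF' hF hcF
        obtain ⟨hf, hfmem⟩ := fac_of hr hrn hrm h F hF hcF
        have h1 := hf.lemP p q t ht (fun u hut =>
          (hagreePh F hGF' _ hf hfmem _ _ (by omega)).2 (hu u hut))
        rcases h1 with h1 | h1
        · right
          exact (hfmem _).2 h1
        · left
          rw [← hi, ← hj] at h1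
          exact (hfmem _).2 h1
    · refine ⟨v, v, hvG, hvG, ?_⟩
      intro F hGF' hF hcF
      obtain ⟨hf, hfmem⟩ := fac_of hr hrn hrm h F hF hcF
      left
      rw [hfmem]
      have h1 := hagree F hGF' _ hf hfmem (v.1 + 1) v.2 (by omega)
      have h2 := hf.right (v.1 + 1) v.2
      have h3 := hf.lei v.1 v.2
      have h4 := hf.step v.1 v.2
      unfold Ph
      omega
  · obtain ⟨t, ht, hnot, hu⟩ := hf₀.walkB _ _ _ rfl hPh hB
    by_cases hgrid : (v.1 : ℕ) + t < n ∧ (v.2 : ℕ) + t < m
    · refine ⟨v, (⟨(v.1 : ℕ) + t, hgrid.1⟩, ⟨(v.2 : ℕ) + t, hgrid.2⟩), hvG,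
        fun hw => hnot ((hmem₀ _).1 (hGF hw)), ?_⟩
      intro F hGF' hF hcF
      obtain ⟨hf, hfmem⟩ := fac_of hr hrn hrm h F hF hcF
      have h1 := hf.lemP v.1 v.2 t ht (fun u hut =>
        (hagreePh F hGF' _ hf hfmem _ _ (by omega)).2 (hu u hut))
      rcases h1 with h1 | h1
      · exact Or.inl ((hfmem _).2 h1)
      · exact Or.inr ((hfmem _).2 h1)
    · refine ⟨v, v, hvG, hvG, ?_⟩
      intro F hGF' hF hcF
      obtain ⟨hf, hfmem⟩ := fac_of hr hrn hrm h F hF hcF
      have h1 := hf.lemP v.1 v.2 t ht (fun u hut =>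
        (hagreePh F hGF' _ hf hfmem _ _ (by omega)).2 (hu u hut))
      left
      rcases h1 with h1 | h1
      · exact (hfmem _).2 h1
      · exfalso
        apply hnot
        unfold Ph at h1 ⊢
        by_cases hx : n ≤ (v.1 : ℕ) + t
        · rw [hf.en _ _ (by omega), hf.en _ _ (by omega)] at h1
          rw [hf₀.en _ _ (by omega), hf₀.en _ _ (by omega)]
          exact h1
        · have hy : m ≤ (v.2 : ℕ) + t := by
            by_contra hy
            exact hgrid ⟨by omega, by omega⟩
          rw [hf.em _ _ (by omega), hf.em _ _ (by omega)] at h1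
          rw [hf₀.em _ _ (by omega), hf₀.em _ _ (by omega)]
          exact h1

theorem mult (h : S_Grid) : S_Mult := by
  classical
  intro n m r hr hrn hrm
  have main : ∀ N : ℕ, ∀ G : Finset (Fin n × Fin m), r * (n + m - r) + 1 - G.card = N →
      Set.ncard {F : Finset (Fin n × Fin m) | G ⊆ F ∧ ChainFree r F ∧
        F.card = r * (n + m - r)} * 2 ^ G.card ≤ 2 ^ (r * (n + m - r)) := by
    intro N
    induction N using Nat.strong_induction_on with
    | _ N ih =>
      intro G hN
      by_cases hempty : {F : Finset (Fin n × Fin m) | G ⊆ F ∧ ChainFree r F ∧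
        F.card = r * (n + m - r)} = ∅
      · rw [hempty, Set.ncard_empty, zero_mul]
        exact Nat.zero_le _
      obtain ⟨F₀, hGF, hF₀, hc₀⟩ := Set.nonempty_iff_ne_empty.2 hempty
      by_cases hne : G = F₀
      · have h1 : {F : Finset (Fin n × Fin m) | G ⊆ F ∧ ChainFree r F ∧
            F.card = r * (n + m - r)} = {G} := by
          ext F
          constructor
          · rintro ⟨h1, _, h2⟩
            rw [← hne] at hc₀
            exact (Finset.eq_of_subset_of_card_le h1 (by rw [h2, hc₀])).symm
          · intro hF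
            rw [Set.mem_singleton_iff] at hF
            rw [hF, hne]
            exact ⟨Finset.Subset.refl _, hF₀, hc₀⟩
        rw [h1, Set.ncard_singleton, one_mul, hne, hc₀]
      · obtain ⟨v, w, hv, hw, hvw⟩ := exchange hr hrn hrm h G F₀ hGF hF₀ hc₀ hne
        have hcard : G.card < r * (n + m - r) := by
          rw [← hc₀]
          exact Finset.card_lt_card (Finset.ssubset_iff_subset_ne.2 ⟨hGF, hne⟩)
        have hsub : {F : Finset (Fin n × Fin m) | G ⊆ F ∧ ChainFree r F ∧
            F.card = r * (n + m - r)} ⊆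
            {F : Finset (Fin n × Fin m) | insert v G ⊆ F ∧ ChainFree r F ∧
              F.card = r * (n + m - r)} ∪
            {F : Finset (Fin n × Fin m) | insert w G ⊆ F ∧ ChainFree r F ∧
              F.card = r * (n + m - r)} := by
          rintro F ⟨h1, h2, h3⟩
          rcases hvw F h1 h2 h3 with h4 | h4
          · exact Or.inl ⟨Finset.insert_subset h4 h1, h2, h3⟩
          · exact Or.inr ⟨Finset.insert_subset h4 h1, h2, h3⟩
        have h1 := (Set.ncard_le_ncard hsub (Set.toFinite _)).trans (Set.ncard_union_le _ _)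
        have hcv : (insert v G).card = G.card + 1 := Finset.card_insert_of_notMem hv
        have hcw : (insert w G).card = G.card + 1 := Finset.card_insert_of_notMem hw
        have h2 := ih _ (by rw [hcv]; omega) (insert v G) rfl
        have h3 := ih _ (by rw [hcw]; omega) (insert w G) rfl
        rw [hcv, pow_succ] at h2
        rw [hcw, pow_succ] at h3
        have h4 := Nat.mul_le_mul_right (2 ^ G.card) h1
        rw [add_mul] at h4
        nlinarith
  exact fun G => main _ G rfl

end Pool.Agent.Q56.DT
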